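import Pool.Agent.TH346.CG.Cay
import Pool.Agent.TH475.CG.Emb
import Pool.Agent.TH321.CG.Red
import Pool.Agent.TH75.CG.TRI
import Pool.Agent.TH424.CG.Cov2
import Pool.Agent.TH521.CG.Pick

/-!
# Triangle-free Cayley graphs of abelian groups: assembly
-/

namespace Pool.Agent.TH346.CG

open Finset Pool.Agent.TH346.LG
open scoped Pointwise

theorem ks_mono {Γ : Type} [AddCommGroup Γ] [DecidableEq Γ] (D : Finset Γ) (h0 : (0 : Γ) ∈ D)
    {a b : ℕ} (h : a ≤ b) : ks a D ⊆ ks b D := by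
  induction h with
  | refl => exact Finset.Subset.refl _
  | step _ ih =>
    refine ih.trans ?_
    intro x hx
    have := Finset.add_mem_add hx h0
    rwa [add_zero] at this

theorem Cov.mono {Γ : Type} [AddCommGroup Γ] [DecidableEq Γ] {A : Finset Γ} {K k L K' k' L' : ℕ}
    {X Y : Finset Γ} (h : Cov A K k L X) (hK : K ≤ K') (hk : k ≤ k') (hL : L ≤ L')
    (hYX : Y ⊆ X) : Cov A K' k' L' Y := by
  obtain ⟨s, hs, hs2, hs3⟩ := h
  refine ⟨s, hs.trans hL, ?_, ?_⟩
  · intro p hp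
    obtain ⟨h1, h2, h3⟩ := hs2 p hp
    exact ⟨h1, h2, h3.trans (Nat.mul_le_mul_right _ hK)⟩
  · intro x hx
    obtain ⟨p, hp, h⟩ := hs3 x (hYX hx)
    obtain ⟨b, hb⟩ := (hs2 p hp).2.1
    refine ⟨p, hp, ks_mono _ ?_ hk h⟩
    have := Finset.sub_mem_sub hb hb
    rwa [sub_self] at this

theorem Vn_symm {Γ : Type} [AddCommGroup Γ] [Fintype Γ] [DecidableEq Γ] (j : ℕ)
    (A V B : Finset Γ) (hA : -A = A) (hV : -V = V) : -(Vn j A V B) = Vn j A V B := by
  have hmem : ∀ x, -x ∈ A ∪ V ↔ x ∈ A ∪ V := by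
    intro x
    rw [Finset.mem_union, Finset.mem_union, ← Finset.mem_neg', ← Finset.mem_neg', hA, hV]
  ext z
  rw [Finset.mem_neg']
  unfold Vn
  rw [Finset.mem_union, Finset.mem_union, ← Finset.mem_neg', hV, Finset.mem_filter,
    Finset.mem_filter]
  have h1 : (B.filter (fun b => -z + b ∈ A ∪ V ∨ -z - b ∈ A ∪ V)) =
      (B.filter (fun b => z + b ∈ A ∪ V ∨ z - b ∈ A ∪ V)) := by
    apply Finset.filter_congr
    intro b _
    have h2 : -z + b = -(z - b) := by abel
    have h3 : -z - b = -(z + b) := by abel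
    rw [h2, h3, hmem, hmem]
    exact or_comm
  rw [h1]
  simp

theorem claim (M : ℕ) : ∀ j K k L : ℕ, ∃ K' k' L' : ℕ, ∀ (Γ : Type) [AddCommGroup Γ]
    [Fintype Γ] [DecidableEq Γ] (A V : Finset Γ), -A = A → -V = V → 0 ∈ V →
    (∀ x ∈ A, ∀ y ∈ A, x + y ∉ A) → P M A {0} → P j A V → Cov A K k L V →
    Cov A K' k' L' A := by
  intro j
  induction j with
  | zero =>
    intro K k L
    refine ⟨0, 0, 0, ?_⟩
    intro Γ _ _ _ A V _ _ _ _ _ hP _
    obtain ⟨ε, h1, _⟩ := hP (fun i => i.elim0) (fun i => i.elim0)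
    simp at h1
  | succ j ih =>
    intro K k L
    obtain ⟨c, K1, k1, hpick⟩ := Pool.Agent.TH521.CG.pick M K k L
    obtain ⟨K2, k2, L2, hih⟩ := ih (max K K1) (2 * (k + k1))
      (L + 8 * c * 3 ^ j + 8 * 3 ^ j * L ^ 2)
    refine ⟨max K K2, max k k2, max L L2, ?_⟩
    intro Γ _ _ _ A V hA hV h0 hsf hPM hP hcov
    by_cases hne : (A \ V).Nonempty
    · obtain ⟨B, B₀, g, hB, hBne, hc, hB₀, hB₀ne, hK1, hBg⟩ :=
        hpick Γ A V hA hV h0 hsf hPM hcov hne
      have h1 := hih Γ A (Vn j A V B) hA (Vn_symm j A V B hA hV)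
        (Finset.mem_union_left _ h0) hsf hPM (Pool.Agent.TH321.CG.red j A V B hA hV hB hBne hP)
        (Pool.Agent.TH424.CG.cov_next A V B B₀ g K K1 k k1 L c j hcov hB hBne hc hB₀ hB₀ne hK1 hBg)
      exact h1.mono (le_max_right _ _) (le_max_right _ _) (le_max_right _ _)
        (Finset.Subset.refl _)
    · have hAV : A ⊆ V := by
        rw [Finset.not_nonempty_iff_eq_empty, Finset.sdiff_eq_empty_iff_subset] at hne
        exact hne
      exact hcov.mono (le_max_left _ _) (le_max_left _ _) (le_max_left _ _) hAV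

/-- Product colouring. -/
theorem colorable_union {V ι : Type} [Fintype ι] (G : SimpleGraph V) (H : ι → SimpleGraph V)
    (C L : ℕ) (hC : 1 ≤ C) (hL : Fintype.card ι ≤ L) (hG : ∀ u v, G.Adj u v → ∃ i, (H i).Adj u v)
    (hH : ∀ i, (H i).Colorable C) : G.Colorable (C ^ L) := by
  classical
  have c : ∀ i, (H i).Coloring (Fin C) := fun i => Classical.choice (hH i)
  have h1 : G.Coloring (ι → Fin C) := SimpleGraph.Coloring.mk (fun v i => c i v) (by
    intro u v huv h
    obtain ⟨i, hi⟩ := hG u v huv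
    exact (c i).valid hi (congrFun h i))
  have h2 := h1.colorable
  rw [Fintype.card_fun, Fintype.card_fin] at h2
  exact h2.mono (Nat.pow_le_pow_right hC hL)

theorem final {m : ℕ} (F : SimpleGraph (Fin m)) (hF : F.IsAcyclic) :
    ∃ C : ℕ, ∀ (Γ : Type) [AddCommGroup Γ] [Fintype Γ] (A : Set Γ),
    (SimpleGraph.addCayley A).CliqueFree 3 →
    IsEmpty (F ↪g SimpleGraph.addCayley A) →
    (SimpleGraph.addCayley A).Colorable C := by
  classical
  obtain ⟨M, hM⟩ := Pool.Agent.TH475.CG.emb F hF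
  obtain ⟨K, k, L, hclaim⟩ := claim M M 1 0 1
  obtain ⟨K', htri⟩ := Pool.Agent.TH75.CG.tripling K k
  obtain ⟨C, hC⟩ := add_main F hF.colorable_two K'
  refine ⟨(C + 1) ^ L, ?_⟩
  intro Γ _ _ A h3 hemp
  set A' : Finset Γ := Finset.univ.filter (fun x => x ≠ 0 ∧ (x ∈ A ∨ -x ∈ A)) with hA'
  have hmemA' : ∀ x, x ∈ A' ↔ x ≠ 0 ∧ (x ∈ A ∨ -x ∈ A) := by
    intro x
    rw [hA', Finset.mem_filter]
    simp
  have hadj : ∀ u v, (SimpleGraph.addCayley A).Adj u v ↔ v - u ∈ A' := by
    intro u v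
    rw [SimpleGraph.addCayley_adj', hmemA']
    constructor
    · rintro ⟨hne, g, hg, h | h⟩
      · refine ⟨fun h0 => hne (sub_eq_zero.1 h0).symm, Or.inl ?_⟩
        rw [← h, add_sub_cancel_left]
        exact hg
      · refine ⟨fun h0 => hne (sub_eq_zero.1 h0).symm, Or.inr ?_⟩
        rw [h, neg_sub, add_sub_cancel_left]
        exact hg
    · rintro ⟨h0, h | h⟩
      · exact ⟨fun h' => h0 (by rw [h', sub_self]), _, h, Or.inl (by abel)⟩
      · exact ⟨fun h' => h0 (by rw [h', sub_self]), _, h, Or.inr (by abel)⟩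
  have hA'neg : -A' = A' := by
    ext x
    rw [Finset.mem_neg', hmemA', hmemA', neg_neg, neg_ne_zero, or_comm]
  have h0A' : (0 : Γ) ∉ A' := fun h => ((hmemA' 0).1 h).1 rfl
  have hGeq : SimpleGraph.addCayley A = SimpleGraph.addCayley (A' : Set Γ) := by
    ext u v
    rw [hadj, SimpleGraph.addCayley_adj']
    constructor
    · intro h
      refine ⟨?_, v - u, h, Or.inl (by abel)⟩
      intro h'
      rw [h', sub_self] at h
      exact h0A' h
    · rintro ⟨hne, g, hg, h | h⟩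
      · rw [← h, add_sub_cancel_left]
        exact hg
      · rw [h, ← hA'neg, Finset.mem_neg', neg_sub, add_sub_cancel_left]
        exact hg
  have hsf : ∀ x ∈ A', ∀ y ∈ A', x + y ∉ A' := by
    intro x hx y hy hxy
    apply h3 {0, x, x + y}
    rw [SimpleGraph.is3Clique_triple_iff, hadj, hadj, hadj]
    refine ⟨by simpa using hx, by simpa using hxy, by simpa using hy⟩
  by_cases hne : A'.Nonempty
  · have hPM : P M A' {0} := hM Γ A' hA'neg h0A' (by rw [← hGeq]; exact hemp)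
    have hcov0 : Cov A' 1 0 1 {0} := by
      obtain ⟨a, ha⟩ := hne
      refine ⟨{(0, {a})}, by simp, ?_, ?_⟩
      · intro p hp
        rw [Finset.mem_singleton] at hp
        subst hp
        refine ⟨by simpa using ha, by simp, by simp⟩
      · intro x hx
        rw [Finset.mem_singleton] at hx
        subst hx
        refine ⟨(0, {a}), by simp, ?_⟩
        simp [ks]
    have hcov := hclaim Γ A' {0} hA'neg (by simp) (by simp) hsf hPM hPM hcov0
    obtain ⟨s, hs, hs2, hs3⟩ := hcov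
    have hS : ∀ p : s, ∃ S : Finset Γ, S ⊆ A' ∧ -S = S ∧
        (∀ x ∈ A', x - p.1.1 ∈ ks k (p.1.2 - p.1.2) → x ∈ S) ∧
        (S + S + S).card ≤ K' * S.card := by
      intro p
      obtain ⟨h1, h2, h4⟩ := hs2 p.1 p.2
      obtain ⟨S, hS1, hS2, _, hS4, hS5⟩ := htri Γ A' p.1.2 p.1.1 hA'neg h1 h2 h4
      exact ⟨S, hS1, hS2, hS4, hS5⟩
    choose S hS1 hS2 hS3 hS4 using hS
    apply colorable_union (SimpleGraph.addCayley A)
      (fun p : s => SimpleGraph.addCayley (S p : Set Γ)) (C + 1) L (by omega)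
    · rw [Fintype.card_coe]
      exact hs
    · intro u v huv
      rw [hadj] at huv
      obtain ⟨p, hp, hx⟩ := hs3 (v - u) huv
      refine ⟨⟨p, hp⟩, ?_⟩
      rw [SimpleGraph.addCayley_adj']
      refine ⟨?_, v - u, hS3 ⟨p, hp⟩ (v - u) huv hx, Or.inl (by abel)⟩
      intro h'
      rw [h', sub_self] at huv
      exact h0A' huv
    · intro p
      refine (hC Γ A' (S p) h0A' (hS1 p) (hS2 p) (hS4 p) ?_ ?_).mono (by omega)
      · rw [← hGeq]; exact h3
      · rw [← hGeq]; exact hemp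
  · have hno : ∀ u v, ¬ (SimpleGraph.addCayley A).Adj u v := by
      intro u v h
      rw [hadj] at h
      exact hne ⟨_, h⟩
    have hcol : (SimpleGraph.addCayley A).Coloring (Fin 1) :=
      SimpleGraph.Coloring.mk (fun _ => 0) (by
        intro u v h
        exact absurd h (hno u v))
    have h2 := hcol.colorable
    rw [Fintype.card_fin] at h2
    exact h2.mono (Nat.one_le_pow _ _ (by omega))

end Pool.Agent.TH346.CG
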