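import Pool.Agent.TH346.LG.Tri

/-!
# Rich edges, local version with respect to a second graph
-/

namespace Pool.Agent.TH346.CG

open Finset Pool.Agent.W259.GS Pool.Agent.TH346.LG

open Classical in
/-- exchange weight inside the `H`-neighbourhood of `u` -/
noncomputable def exh {V : Type} [Fintype V] (G H : SimpleGraph V) (w : V → ℝ) (Q : Finset V)
    (u v : V) : ℝ :=
  ∑ z, if (H.Adj u z ∧ ∀ q ∈ Q, q ≠ v → G.Adj q z) then w z else 0

theorem exh_le_nw {V : Type} [Fintype V] (G H : SimpleGraph V) (w : V → ℝ) (hw : ∀ v, 0 ≤ w v)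
    (Q : Finset V) (u v : V) : exh G H w Q u v ≤ nw H w u := by
  unfold exh nw
  apply Finset.sum_le_sum
  intro z _
  by_cases h1 : H.Adj u z
  · rw [if_pos h1]
    split_ifs
    · exact le_rfl
    · exact hw z
  · rw [if_neg h1, if_neg (fun h => h1 h.1)]

theorem two_main {α : Type} [Fintype α] (F : SimpleGraph α) (hF : F.Colorable 2) (k : ℕ) (ε : ℝ)
    (hε : 0 < ε) : ∃ C : ℕ, ∀ (V : Type) [Fintype V] (G H : SimpleGraph V) (w : V → ℝ),
    (∀ v, 0 ≤ w v) → G.CliqueFree (k + 1) → IsEmpty (F ↪g G) →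
    ∃ c : V → Fin C, ∀ u v, G.Adj u v → H.Adj u v → c u = c v → ∀ Q : Finset V,
      G.IsClique (Q : Set V) → (∀ z, ∃ q ∈ Q, ¬ G.Adj q z) → u ∈ Q → v ∈ Q →
      0 < exh G H w Q u v → exh G H w Q u v < ε * bw H w 6 u := by
  classical
  obtain ⟨C₀, hC₀⟩ := main F hF k ε hε
  obtain ⟨M, hM⟩ := exists_nat_gt (1 / ε ^ 2)
  refine ⟨C₀ * M + 1, ?_⟩
  intro V _ G H w hw hfree hemp
  obtain ⟨W, hW⟩ : ∃ W : V → Prop, ∀ u, W u ↔ (0 < nw H w u ∧ ε * bw H w 6 u ≤ nw H w u) :=
    ⟨_, fun u => Iff.rfl⟩
  -- maximal family with disjoint neighbourhoods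
  obtain ⟨X, hXW, hXd, hXm⟩ : ∃ X : Finset V, (∀ x ∈ X, W x) ∧
      (∀ x ∈ X, ∀ y ∈ X, x ≠ y → ∀ z, H.Adj x z → ¬ H.Adj y z) ∧
      ∀ u, W u → ∃ x ∈ X, ∃ z, H.Adj u z ∧ H.Adj x z := by
    obtain ⟨P, hP⟩ : ∃ P : Finset V → Prop, ∀ I, P I ↔ ((∀ x ∈ I, W x) ∧
      (∀ x ∈ I, ∀ y ∈ I, x ≠ y → ∀ z, H.Adj x z → ¬ H.Adj y z)) := ⟨_, fun I => Iff.rfl⟩
    have hne : ((Finset.univ : Finset (Finset V)).filter P).Nonempty :=
      ⟨∅, Finset.mem_filter.2 ⟨Finset.mem_univ _, (hP ∅).2 (by simp)⟩⟩
    obtain ⟨X, hX, hmax⟩ := Finset.exists_max_image _ Finset.card hne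
    have hXP := (hP X).1 (Finset.mem_filter.1 hX).2
    refine ⟨X, hXP.1, hXP.2, ?_⟩
    intro u hu
    by_cases huX : u ∈ X
    · have h1 : ∃ z, H.Adj u z := by
        by_contra hno
        push Not at hno
        have h2 : nw H w u = 0 := by
          unfold nw
          apply Finset.sum_eq_zero
          intro z _
          rw [if_neg (hno z)]
        have := ((hW u).1 hu).1
        linarith
      obtain ⟨z, hz⟩ := h1
      exact ⟨u, huX, z, hz, hz⟩
    · by_contra hno
      push Not at hno
      have h2 : insert u X ∈ (Finset.univ : Finset (Finset V)).filter P := by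
        rw [Finset.mem_filter, hP]
        refine ⟨Finset.mem_univ _, ?_, ?_⟩
        · intro x hx
          rcases Finset.mem_insert.1 hx with h3 | h3
          · rw [h3]; exact hu
          · exact hXP.1 x h3
        · intro x hx y hy hxy z hxz
          rcases Finset.mem_insert.1 hx with h3 | h3
          · rcases Finset.mem_insert.1 hy with h4 | h4
            · exact absurd (h3.trans h4.symm) hxy
            · rw [h3] at hxz
              exact hno y h4 z hxz
          · rcases Finset.mem_insert.1 hy with h4 | h4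
            · rw [h4]
              exact fun h5 => hno x h3 z h5 hxz
            · exact hXP.2 x h3 y h4 hxy z hxz
      have h3 := hmax _ h2
      rw [Finset.card_insert_of_notMem huX] at h3
      omega
  have hXm' : ∀ u, W u → ∃ x : X, ∃ z, H.Adj u z ∧ H.Adj (x : V) z := by
    intro u hu
    obtain ⟨x, hx, z, hz⟩ := hXm u hu
    exact ⟨⟨x, hx⟩, z, hz⟩
  choose π hπ using hXm'
  have hnear : ∀ u (hu : W u), H.edist u (π u hu) ≤ ((2 : ℕ) : ℕ∞) := by
    intro u hu
    obtain ⟨z, h1, h2⟩ := hπ u hu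
    exact near_trans 2 (near_adj h1) (near_adj h2.symm) (by norm_num)
  -- local colourings
  have hlocal : ∀ x : X, ∃ c : V → Fin C₀, ∀ u v, G.Adj u v → c u = c v → ∀ Q : Finset V,
      G.IsClique (Q : Set V) → (∀ z, ∃ q ∈ Q, ¬ G.Adj q z) → u ∈ Q → v ∈ Q →
      H.edist u (x : V) ≤ ((2 : ℕ) : ℕ∞) → exh G H w Q u v < ε * bw H w 6 u := by
    rintro ⟨x, hx⟩
    have hxW := (hW x).1 (hXW x hx)
    have hB : 0 < bw H w 3 x := by
      refine lt_of_lt_of_le hxW.1 (nw_le_bw H w hw ?_)
      intro z hz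
      exact near_trans 3 (near_adj hz) (r := 1) (s := 0) (by simp) (by norm_num)
    obtain ⟨c, hc⟩ := hC₀ V G (fun z => if H.edist x z ≤ ((3 : ℕ) : ℕ∞) then w z / bw H w 3 x else 0)
      (by
        intro v
        split_ifs
        · exact div_nonneg (hw v) hB.le
        · exact le_rfl)
      (by
        have h1 : ∀ z, (if H.edist x z ≤ ((3 : ℕ) : ℕ∞) then w z / bw H w 3 x else 0) =
            (if H.edist x z ≤ ((3 : ℕ) : ℕ∞) then w z else 0) / bw H w 3 x := by
          intro z
          split_ifs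
          · rfl
          · simp
        simp only [h1]
        rw [← Finset.sum_div]
        exact div_self hB.ne')
      hfree hemp
    refine ⟨c, ?_⟩
    intro u v huv huc Q hQ hQm hu hv hux
    have h1 := (hc u v huv huc Q hQ hQm hu hv).2
    have h2 : exh G H w Q u v / bw H w 3 x ≤
        exch G (fun z => if H.edist x z ≤ ((3 : ℕ) : ℕ∞) then w z / bw H w 3 x else 0) Q v := by
      unfold exh exch
      rw [Finset.sum_div]
      apply Finset.sum_le_sum
      intro z _
      by_cases h3 : ∀ q ∈ Q, q ≠ v → G.Adj q z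
      · rw [if_pos h3]
        by_cases h5 : H.Adj u z
        · have h4 : H.edist x z ≤ ((3 : ℕ) : ℕ∞) :=
            near_trans 3 (near_symm hux) (near_adj h5) (by norm_num)
          rw [if_pos ⟨h5, h3⟩]
          exact le_of_eq (if_pos h4).symm
        · rw [if_neg (fun h => h5 h.1)]
          have : (0 : ℝ) ≤ (if H.edist x z ≤ ((3 : ℕ) : ℕ∞) then w z / bw H w 3 x else 0) := by
            split_ifs
            · exact div_nonneg (hw z) hB.le
            · exact le_rfl
          rw [zero_div]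
          exact this
      · rw [if_neg h3, if_neg (fun h => h3 h.2)]
        simp
    have h1 := lt_of_le_of_lt h2 h1
    rw [div_lt_iff₀ hB] at h1
    refine lt_of_lt_of_le h1 (mul_le_mul_of_nonneg_left ?_ hε.le)
    apply bw_mono H w hw
    intro z hz
    exact near_trans 6 hux hz (by norm_num)
  choose c hc using hlocal
  -- colouring of the centres
  obtain ⟨κ, hκ⟩ : ∃ κ : X → Fin M, ∀ x y : X, x ≠ y → H.edist (x : V) (y : V) ≤ ((5 : ℕ) : ℕ∞) →
      κ x ≠ κ y := by
    apply greedy
    · intro x y h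
      exact near_symm h
    · intro x Y hY
      have hx := (hW x).1 (hXW x x.2)
      have h1 : (Y.card : ℝ) * (ε * nw H w x) ≤ bw H w 6 x := by
        have h2 : ∀ y ∈ Y, ε * nw H w x ≤ nw H w y := by
          intro y hy
          have hyW := (hW y).1 (hXW y y.2)
          refine le_trans (mul_le_mul_of_nonneg_left ?_ hε.le) hyW.2
          apply nw_le_bw H w hw
          intro z hz
          exact near_trans 6 (near_symm (hY y hy)) (near_adj hz) (by norm_num)
        have h3 : ∑ y ∈ Y, nw H w y ≤ bw H w 6 x := by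
          unfold nw bw
          rw [Finset.sum_comm]
          apply Finset.sum_le_sum
          intro z _
          by_cases h4 : ∃ y ∈ Y, H.Adj (y : V) z
          · obtain ⟨y, hy, hyz⟩ := h4
            have h5 : H.edist (x : V) z ≤ ((6 : ℕ) : ℕ∞) :=
              near_trans 6 (hY y hy) (near_adj hyz) (by norm_num)
            rw [if_pos h5, Finset.sum_eq_single_of_mem y hy, if_pos hyz]
            intro y' _ hne
            rw [if_neg]
            exact hXd y y.2 y' y'.2 (fun h => hne (Subtype.ext h.symm)) z hyz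
          · push Not at h4
            rw [Finset.sum_eq_zero (fun y hy => if_neg (h4 y hy))]
            split_ifs
            · exact hw z
            · exact le_rfl
        calc (Y.card : ℝ) * (ε * nw H w x) = ∑ _y ∈ Y, ε * nw H w x := by
              rw [Finset.sum_const, nsmul_eq_mul]
          _ ≤ ∑ y ∈ Y, nw H w y := Finset.sum_le_sum h2
          _ ≤ _ := h3
      have h2 : (Y.card : ℝ) * ε ^ 2 ≤ 1 := by
        have h3 : (Y.card : ℝ) * ε ^ 2 * nw H w x ≤ 1 * nw H w x := by
          calc (Y.card : ℝ) * ε ^ 2 * nw H w x = ε * ((Y.card : ℝ) * (ε * nw H w x)) := by ring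
            _ ≤ ε * bw H w 6 x := mul_le_mul_of_nonneg_left h1 hε.le
            _ ≤ nw H w x := hx.2
            _ = 1 * nw H w x := (one_mul _).symm
        exact le_of_mul_le_mul_right h3 hx.1
      have h3 : (Y.card : ℝ) ≤ 1 / ε ^ 2 := by
        rw [le_div_iff₀ (by positivity)]
        exact h2
      have h4 : (Y.card : ℝ) < M := lt_of_le_of_lt h3 hM
      exact_mod_cast h4
  have e : Option (Fin C₀ × Fin M) ≃ Fin (C₀ * M + 1) :=
    Fintype.equivFinOfCardEq (by simp)
  refine ⟨fun v => e (if h : W v then some (c (π v h) v, κ (π v h)) else none), ?_⟩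
  intro u v huv huvH huc Q hQ hQm hu hv hpos
  by_contra hge
  push Not at hge
  have h1 := exh_le_nw G H w hw Q u v
  have huW : W u := (hW u).2 ⟨lt_of_lt_of_le hpos h1, hge.trans h1⟩
  have h2 := e.injective huc
  rw [dif_pos huW] at h2
  by_cases hvW : W v
  · rw [dif_pos hvW] at h2
    have h3 := Option.some_injective _ h2
    have h4 : c (π u huW) u = c (π v hvW) v := congrArg Prod.fst h3
    have h5 : κ (π u huW) = κ (π v hvW) := congrArg Prod.snd h3
    have h6 : π u huW = π v hvW := by
      by_contra hne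
      refine hκ _ _ hne ?_ h5
      exact near_trans 5 (near_symm (hnear u huW))
        (near_trans 3 (near_adj huvH) (hnear v hvW) (by norm_num)) (by norm_num)
    rw [← h6] at h4
    have h7 := hc (π u huW) u v huv h4 Q hQ hQm hu hv (hnear u huW)
    linarith
  · rw [dif_neg hvW] at h2
    exact absurd h2 (by simp)


theorem two_tri {α : Type} [Fintype α] (F : SimpleGraph α) (hF : F.Colorable 2) (K : ℝ) :
    ∃ C : ℕ, ∀ (V : Type) [Fintype V] (G H : SimpleGraph V), H ≤ G → G.CliqueFree 3 →
    IsEmpty (F ↪g G) →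
    (∀ u v, H.Adj u v →
      (({z | H.edist u z ≤ 6} : Set V).ncard : ℝ) ≤ K * (H.neighborSet u).ncard) →
    H.Colorable C := by
  classical
  have hK : (0 : ℝ) < max K 1 := lt_of_lt_of_le one_pos (le_max_right _ _)
  obtain ⟨C, hC⟩ := two_main F hF 2 (1 / max K 1) (by positivity)
  refine ⟨C, ?_⟩
  intro V _ G H hHG h3 hemp hgrowth
  obtain ⟨c, hc⟩ := hC V G H (fun _ => 1) (fun _ => zero_le_one) h3 hemp
  refine ⟨SimpleGraph.Coloring.mk c ?_⟩
  intro u v huvH huc
  have huv : G.Adj u v := hHG huvH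
  have hm := pair_max G h3 huv
  have h1 := hc u v huv huvH huc {u, v} hm.1 hm.2 (by simp) (by simp)
  have h0 : exh G H (fun _ => 1) {u, v} u v = (H.neighborSet u).ncard := by
    have h2 : exh G H (fun _ => 1) {u, v} u v = ∑ z, if H.Adj u z then (1 : ℝ) else 0 := by
      unfold exh
      apply Finset.sum_congr rfl
      intro z _
      by_cases h : H.Adj u z
      · rw [if_pos h, if_pos]
        refine ⟨h, ?_⟩
        intro q hq hqv
        rcases Finset.mem_insert.1 hq with h2 | h2
        · rw [h2]; exact hHG h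
        · exact absurd (Finset.mem_singleton.1 h2) hqv
      · rw [if_neg h, if_neg (fun h' => h h'.1)]
    rw [h2, Finset.sum_boole, Set.ncard_eq_toFinset_card']
    congr 2
    ext z
    simp
  rw [h0, bw_one] at h1
  have h2 : (0 : ℝ) < ((H.neighborSet u).ncard : ℝ) := by exact_mod_cast pos_neigh H huvH
  have h4 := h1 h2
  have h5 : (({z | H.edist u z ≤ 6} : Set V).ncard : ℝ) ≤
      max K 1 * (H.neighborSet u).ncard :=
    (hgrowth u v huvH).trans (mul_le_mul_of_nonneg_right (le_max_left _ _) h2.le)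
  have h6 : 1 / max K 1 * (({z | H.edist u z ≤ 6} : Set V).ncard : ℝ) ≤
      (H.neighborSet u).ncard := by
    rw [one_div, inv_mul_le_iff₀ hK]
    exact h5
  linarith

end Pool.Agent.TH346.CG
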