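import Pool.Agent.TH346.CG.Defs
import Pool.Agent.TH346.CG.Two

/-!
# Subsets of small tripling of the generating set
-/

namespace Pool.Agent.TH346.CG

open Finset Pool.Agent.TH346.LG
open scoped Pointwise

theorem ks_eq_nsmul {Γ : Type} [AddCommGroup Γ] [DecidableEq Γ] (k : ℕ) (D : Finset Γ) :
    ks k D = nsmulRec k D := by
  induction k with
  | zero => rfl
  | succ k ih =>
    show ks k D + D = nsmulRec k D + D
    rw [ih]

theorem card_ks_six {Γ : Type} [AddCommGroup Γ] [DecidableEq Γ] (S : Finset Γ) (hS : -S = S)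
    (K : ℕ) (hK : (S + S + S).card ≤ K * S.card) : (ks 6 S).card ≤ K ^ 4 * S.card := by
  have h3 : ks 3 S = S + S + S := by
    show (((({0} : Finset Γ) + S) + S) + S) = _
    rw [Finset.singleton_zero, zero_add]
  have h := Finset.small_nsmul_of_small_tripling (A := S) (K := (K : ℝ)) (m := 6) (by norm_num)
    (by
      have h4 : ((ks 3 S).card : ℝ) ≤ (K : ℝ) * (S.card : ℝ) := by
        rw [h3]
        exact_mod_cast hK
      rw [ks_eq_nsmul] at h4
      exact h4) hS
  have h5 : ((ks 6 S).card : ℝ) ≤ (K : ℝ) ^ 4 * (S.card : ℝ) := by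
    rw [ks_eq_nsmul]
    exact h
  exact_mod_cast h5

theorem card_ks_le {Γ : Type} [AddCommGroup Γ] [DecidableEq Γ] (S : Finset Γ) (hS : S.Nonempty)
    {a b : ℕ} (h : a ≤ b) : (ks a S).card ≤ (ks b S).card := by
  induction h with
  | refl => exact le_rfl
  | step _ ih => exact ih.trans (Finset.card_le_card_add_right hS)

theorem add_walk {Γ : Type} [AddCommGroup Γ] [DecidableEq Γ] (S : Finset Γ) (hS : -S = S)
    {v z : Γ} (p : (SimpleGraph.addCayley (S : Set Γ)).Walk v z) : z - v ∈ ks p.length S := by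
  induction p with
  | nil => simp [ks]
  | @cons v x z h q ih =>
    have h1 : x - v ∈ S := by
      rw [SimpleGraph.addCayley_adj'] at h
      obtain ⟨_, g, hg, h2 | h2⟩ := h
      · rw [← h2, add_sub_cancel_left]
        simpa using hg
      · rw [h2, ← hS, Finset.mem_neg']
        simpa using hg
    rw [SimpleGraph.Walk.length_cons]
    show z - v ∈ ks q.length S + S
    have h3 : z - v = (z - x) + (x - v) := by abel
    rw [h3]
    exact Finset.add_mem_add ih h1

theorem add_ball {Γ : Type} [AddCommGroup Γ] [Fintype Γ] [DecidableEq Γ] (S : Finset Γ)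
    (hS : -S = S) (hne : S.Nonempty) (K : ℕ) (hK : (S + S + S).card ≤ K * S.card) (u : Γ) :
    ({z | (SimpleGraph.addCayley (S : Set Γ)).edist u z ≤ 6} : Set Γ).ncard ≤
      7 * K ^ 4 * S.card := by
  have h1 : ({z | (SimpleGraph.addCayley (S : Set Γ)).edist u z ≤ 6} : Set Γ) ⊆
      (((Finset.range 7).biUnion fun j => (ks j S).image (fun g => u + g) : Finset Γ) : Set Γ) := by
    intro z hz
    have hz' : (SimpleGraph.addCayley (S : Set Γ)).edist u z ≤ 6 := hz
    have hne : (SimpleGraph.addCayley (S : Set Γ)).edist u z ≠ ⊤ := by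
      intro h
      rw [h] at hz'
      exact absurd hz' (by simp)
    obtain ⟨p, hp⟩ := SimpleGraph.exists_walk_of_edist_ne_top hne
    rw [← hp] at hz'
    have h6 : p.length ≤ 6 := by exact_mod_cast hz'
    rw [Finset.mem_coe, Finset.mem_biUnion]
    exact ⟨p.length, Finset.mem_range.2 (by omega), Finset.mem_image.2
      ⟨z - u, add_walk S hS p, by abel⟩⟩
  refine (Set.ncard_le_ncard h1 (Finset.finite_toSet _)).trans ?_
  rw [Set.ncard_coe_finset]
  refine Finset.card_biUnion_le.trans ?_
  calc ∑ j ∈ Finset.range 7, ((ks j S).image (fun g => u + g)).card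
      ≤ ∑ _j ∈ Finset.range 7, K ^ 4 * S.card := by
        apply Finset.sum_le_sum
        intro j hj
        refine Finset.card_image_le.trans ?_
        exact (card_ks_le S hne (by have := Finset.mem_range.1 hj; omega)).trans
          (card_ks_six S hS K hK)
    _ = 7 * K ^ 4 * S.card := by simp; ring

/-- Subsets of small tripling of the generating set of a triangle-free Cayley graph without
induced `F` have bounded chromatic number. -/
theorem add_main {α : Type} [Fintype α] (F : SimpleGraph α) (hF : F.Colorable 2) (K : ℕ) :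
    ∃ C : ℕ, ∀ (Γ : Type) [AddCommGroup Γ] [Fintype Γ] [DecidableEq Γ] (A S : Finset Γ),
    0 ∉ A → S ⊆ A → -S = S → (S + S + S).card ≤ K * S.card →
    (SimpleGraph.addCayley (A : Set Γ)).CliqueFree 3 →
    IsEmpty (F ↪g SimpleGraph.addCayley (A : Set Γ)) →
    (SimpleGraph.addCayley (S : Set Γ)).Colorable C := by
  obtain ⟨C, hC⟩ := two_tri F hF (7 * K ^ 4)
  refine ⟨C, ?_⟩
  intro Γ _ _ _ A S h0 hSA hS hK h3 hemp
  refine hC Γ _ _ ?_ h3 hemp ?_
  · exact SimpleGraph.addCayley_mono (by exact_mod_cast hSA)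
  intro u v huv
  have hne : S.Nonempty := by
    rw [SimpleGraph.addCayley_adj'] at huv
    obtain ⟨_, g, hg, _⟩ := huv
    exact ⟨g, hg⟩
  have hd : S.card ≤ ((SimpleGraph.addCayley (S : Set Γ)).neighborSet u).ncard := by
    have h1 : ((S.image (fun g => u + g) : Finset Γ) : Set Γ) ⊆
        ((SimpleGraph.addCayley (S : Set Γ)).neighborSet u) := by
      intro z hz
      rw [Finset.mem_coe, Finset.mem_image] at hz
      obtain ⟨g, hg, rfl⟩ := hz
      rw [SimpleGraph.mem_neighborSet, SimpleGraph.addCayley_adj']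
      refine ⟨?_, g, hg, Or.inl rfl⟩
      intro h
      have : g = 0 := by simpa using h
      exact h0 (this ▸ hSA hg)
    have h2 := Set.ncard_le_ncard h1 (Set.toFinite _)
    rwa [Set.ncard_coe_finset, Finset.card_image_of_injective _ (add_right_injective u)] at h2
  have h1 := add_ball S hS hne K hK u
  have h2 : 7 * K ^ 4 * S.card ≤
      7 * K ^ 4 * ((SimpleGraph.addCayley (S : Set Γ)).neighborSet u).ncard :=
    Nat.mul_le_mul_left _ hd
  have h4 := h1.trans h2
  exact_mod_cast h4

end Pool.Agent.TH346.CG
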