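import Mathlib

/-!
# Triangle-free Cayley graphs of abelian groups: definitions
-/

open Finset
open scoped Pointwise

namespace Pool.Agent.TH346.CG

/-- Every `j`-tuple of elements of `A \ V` has a signed sub-sum with at least two terms in
`A ∪ V`. -/
def P {Γ : Type} [AddCommGroup Γ] [DecidableEq Γ] (j : ℕ) (A V : Finset Γ) : Prop :=
  ∀ a : Fin j → Γ, (∀ i, a i ∈ A ∧ a i ∉ V) →
    ∃ ε : Fin j → SignType, 2 ≤ (univ.filter (fun i => ε i ≠ 0)).card ∧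
      (∑ i, ((ε i : SignType) : ℤ) • a i) ∈ A ∪ V

/-- `V` and the popular differences -/
def Vn {Γ : Type} [AddCommGroup Γ] [Fintype Γ] [DecidableEq Γ] (j : ℕ) (A V B : Finset Γ) :
    Finset Γ :=
  V ∪ univ.filter (fun z =>
    B.card ≤ 3 ^ j * (B.filter (fun b => z + b ∈ A ∪ V ∨ z - b ∈ A ∪ V)).card)

/-- the `k`-fold sumset of `D` -/
def ks {Γ : Type} [AddCommGroup Γ] [DecidableEq Γ] : ℕ → Finset Γ → Finset Γ
  | 0, _ => {0}
  | k + 1, D => ks k D + D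

/-- `X` is covered by at most `L` translates of sets `k (B - B)` with `B ⊆ A` nonempty and
`|B - B| ≤ K |B|`. -/
def Cov {Γ : Type} [AddCommGroup Γ] [DecidableEq Γ] (A : Finset Γ) (K k L : ℕ) (X : Finset Γ) :
    Prop :=
  ∃ s : Finset (Γ × Finset Γ), s.card ≤ L ∧
    (∀ p ∈ s, p.2 ⊆ A ∧ p.2.Nonempty ∧ (p.2 - p.2).card ≤ K * p.2.card) ∧
    ∀ x ∈ X, ∃ p ∈ s, x - p.1 ∈ ks k (p.2 - p.2)

end Pool.Agent.TH346.CG
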