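import Pool.Agent.TH346.CG.Defs

/-!
# Cayley graphs of abelian groups of bounded exponent: definitions
-/

open Finset
open scoped Pointwise

namespace Pool.Agent.TH346.CG

/-- the number of `t ∈ R` at which `A` and `A + a` differ -/
def nrm {Γ : Type} [AddCommGroup Γ] [DecidableEq Γ] (A R : Finset Γ) (a : Γ) : ℕ :=
  (R.filter fun t => ¬ (t ∈ A ↔ t - a ∈ A)).card

/-- polynomial packing bound for the translates of `A` -/
def Pack {Γ : Type} [AddCommGroup Γ] [DecidableEq Γ] (C d : ℕ) (A : Finset Γ) : Prop :=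
  ∀ (R U : Finset Γ) (q : ℕ), 1 ≤ q → R.Nonempty →
    (∀ u ∈ U, ∀ v ∈ U, u ≠ v →
      R.card ≤ q * (R.filter fun z => ¬ (z - u ∈ A ↔ z - v ∈ A)).card) →
    U.card ≤ C * q ^ d

/-- the `M`-dimensional cube: subsets of `Fin M`, adjacent when they differ in one element -/
def cube (M : ℕ) : SimpleGraph (Finset (Fin M)) where
  Adj S T := (symmDiff S T).card = 1
  symm := ⟨fun S T h => by rw [symmDiff_comm]; exact h⟩
  loopless := ⟨fun S h => by simp at h⟩

end Pool.Agent.TH346.CG
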