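import Pool.Agent.TH346.CG.Sub

/-!
# All clique numbers for groups of bounded exponent
-/

namespace Pool.Agent.TH346.CG

open Finset Pool.Agent.TH346.LG
open scoped Pointwise

theorem claim' (M : ℕ) : ∀ j K k L : ℕ, ∃ K' k' L' : ℕ, ∀ (Γ : Type) [AddCommGroup Γ]
    [Fintype Γ] [DecidableEq Γ] (A V : Finset Γ), -A = A → -V = V → 0 ∈ V →
    P M A {0} → P j A V → Cov A K k L V → Cov A K' k' L' A := by
  intro j
  induction j with
  | zero =>
    intro K k L
    refine ⟨0, 0, 0, ?_⟩
    intro Γ _ _ _ A V _ _ _ _ hP _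
    obtain ⟨ε, h1, _⟩ := hP (fun i => i.elim0) (fun i => i.elim0)
    simp at h1
  | succ j ih =>
    intro K k L
    obtain ⟨c, K1, k1, hpick⟩ := Pool.Agent.TH720.CG.pick' M K k L
    obtain ⟨K2, k2, L2, hih⟩ := ih (max K K1) (2 * (k + k1))
      (L + 8 * c * 3 ^ j + 8 * 3 ^ j * L ^ 2)
    refine ⟨max K K2, max k k2, max L L2, ?_⟩
    intro Γ _ _ _ A V hA hV h0 hPM hP hcov
    by_cases hne : (A \ V).Nonempty
    · obtain ⟨B, B₀, g, hB, hBne, hc, hB₀, hB₀ne, hK1, hBg⟩ :=
        hpick Γ A V hA hV h0 hPM hcov hne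
      have h1 := hih Γ A (Vn j A V B) hA (Vn_symm j A V B hA hV)
        (Finset.mem_union_left _ h0) hPM (Pool.Agent.TH321.CG.red j A V B hA hV hB hBne hP)
        (Pool.Agent.TH424.CG.cov_next A V B B₀ g K K1 k k1 L c j hcov hB hBne hc hB₀ hB₀ne hK1 hBg)
      exact h1.mono (le_max_right _ _) (le_max_right _ _) (le_max_right _ _)
        (Finset.Subset.refl _)
    · have hAV : A ⊆ V := by
        rw [Finset.not_nonempty_iff_eq_empty, Finset.sdiff_eq_empty_iff_subset] at hne
        exact hne
      exact hcov.mono (le_max_left _ _) (le_max_left _ _) (le_max_left _ _) hAV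

/-- `A` is a bounded union of symmetric subsets of small tripling. -/
theorem pieces (M : ℕ) : ∃ K L : ℕ, ∀ (Γ : Type) [AddCommGroup Γ] [Fintype Γ] [DecidableEq Γ]
    (A : Finset Γ), -A = A → A.Nonempty → P M A {0} →
    ∃ (s : Finset (Γ × Finset Γ)) (S : s → Finset Γ), s.card ≤ L ∧
      (∀ p, S p ⊆ A ∧ (S p).Nonempty ∧ -(S p) = S p ∧
        (S p + S p + S p).card ≤ K * (S p).card) ∧ ∀ a ∈ A, ∃ p, a ∈ S p := by
  obtain ⟨K, k, L, hclaim⟩ := claim' M M 1 0 1
  obtain ⟨K', htri⟩ := Pool.Agent.TH75.CG.tripling K k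
  refine ⟨K', L, ?_⟩
  intro Γ _ _ _ A hA hne hPM
  have hcov0 : Cov A 1 0 1 {0} := by
    obtain ⟨a, ha⟩ := hne
    refine ⟨{(0, {a})}, by simp, ?_, ?_⟩
    · intro p hp
      rw [Finset.mem_singleton] at hp
      subst hp
      refine ⟨by simpa using ha, by simp, by simp⟩
    · intro x hx
      rw [Finset.mem_singleton] at hx
      subst hx
      refine ⟨(0, {a}), by simp, ?_⟩
      simp [ks]
  obtain ⟨s, hs, hs2, hs3⟩ := hclaim Γ A {0} hA (by simp) (by simp) hPM hPM hcov0
  have hS : ∀ p : s, ∃ S : Finset Γ, (S ⊆ A ∧ S.Nonempty ∧ -S = S ∧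
      (S + S + S).card ≤ K' * S.card) ∧
      (∀ x ∈ A, x - p.1.1 ∈ ks k (p.1.2 - p.1.2) → x ∈ S) := by
    intro p
    obtain ⟨h1, h2, h4⟩ := hs2 p.1 p.2
    obtain ⟨S, hS1, hS2, hS3, hS4, hS5⟩ := htri Γ A p.1.2 p.1.1 hA h1 h2 h4
    exact ⟨S, ⟨hS1, h2.mono hS3, hS2, hS5⟩, hS4⟩
  choose S hS1 hS2 using hS
  refine ⟨s, S, hs, hS1, ?_⟩
  intro a ha
  obtain ⟨p, hp, hx⟩ := hs3 a ha
  exact ⟨⟨p, hp⟩, hS2 ⟨p, hp⟩ a ha hx⟩

theorem coset_color {Γ : Type} [AddCommGroup Γ] [Fintype Γ] (H : AddSubgroup Γ) (y : Γ)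
    (hy : y ∉ H) : ∃ c : Γ → Fin 3, ∀ u v, (v - u - y ∈ H ∨ v - u + y ∈ H) → c u ≠ c v := by
  classical
  obtain ⟨κ, hκ⟩ := greedy (X := Γ ⧸ H)
    (fun x x' => x' = x + (y : Γ ⧸ H) ∨ x' = x - (y : Γ ⧸ H))
    (by
      rintro x x' (h | h)
      · right; rw [h]; abel
      · left; rw [h]; abel)
    3 (by
      intro x Y hY
      have h1 : Y ⊆ {x + (y : Γ ⧸ H), x - (y : Γ ⧸ H)} := by
        intro z hz
        rw [Finset.mem_insert, Finset.mem_singleton]
        exact hY z hz
      have h2 := Finset.card_le_card h1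
      have h3 := Finset.card_insert_le (x + (y : Γ ⧸ H)) {x - (y : Γ ⧸ H)}
      rw [Finset.card_singleton] at h3
      omega)
  have hy0 : (y : Γ ⧸ H) ≠ 0 := fun h => hy ((QuotientAddGroup.eq_zero_iff y).1 h)
  refine ⟨fun u => κ (u : Γ ⧸ H), ?_⟩
  intro u v huv
  have h1 : (v : Γ ⧸ H) = (u : Γ ⧸ H) + (y : Γ ⧸ H) ∨ (v : Γ ⧸ H) = (u : Γ ⧸ H) - (y : Γ ⧸ H) := by
    rcases huv with h | h
    · left
      have h2 := (QuotientAddGroup.eq_zero_iff (v - u - y)).2 h
      rw [QuotientAddGroup.mk_sub, QuotientAddGroup.mk_sub] at h2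
      rw [sub_eq_zero] at h2
      rw [← h2]; abel
    · right
      have h2 := (QuotientAddGroup.eq_zero_iff (v - u + y)).2 h
      rw [QuotientAddGroup.mk_add, QuotientAddGroup.mk_sub] at h2
      have h3 : (v : Γ ⧸ H) - (u : Γ ⧸ H) = -(y : Γ ⧸ H) := eq_neg_of_add_eq_zero_left h2
      rw [sub_eq_iff_eq_add] at h3
      rw [h3]; abel
  apply hκ _ _ ?_ h1
  intro h
  rcases h1 with h2 | h2
  · rw [h] at h2
    exact hy0 (by simpa using h2)
  · rw [h] at h2
    exact hy0 (sub_eq_self.1 h2.symm)

theorem sub_color {Γ : Type} [AddCommGroup Γ] (H : AddSubgroup Γ) (X : Set Γ) (C : ℕ)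
    (hC : (SimpleGraph.addCayley {h : H | (h : Γ) ∈ X}).Colorable C) :
    (SimpleGraph.addCayley {x : Γ | x ∈ X ∧ x ∈ H}).Colorable C := by
  classical
  have c : (SimpleGraph.addCayley {h : H | (h : Γ) ∈ X}).Coloring (Fin C) := Classical.choice hC
  have hrep : ∀ u : Γ, u - ((u : Γ ⧸ H).out : Γ) ∈ H := by
    intro u
    have h1 : (((u : Γ ⧸ H).out : Γ) : Γ ⧸ H) = (u : Γ ⧸ H) := QuotientAddGroup.out_eq' _
    have h2 := QuotientAddGroup.eq.1 h1
    rwa [neg_add_eq_sub] at h2
  refine ⟨SimpleGraph.Coloring.mk (fun u => c ⟨u - ((u : Γ ⧸ H).out : Γ), hrep u⟩) ?_⟩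
  intro u v huv
  rw [SimpleGraph.addCayley_adj'] at huv
  obtain ⟨hne, g, ⟨hgX, hgH⟩, h⟩ := huv
  have hcos : (u : Γ ⧸ H) = (v : Γ ⧸ H) := by
    rw [QuotientAddGroup.eq]
    rcases h with h | h
    · rw [← h]; simpa using hgH
    · rw [h]; simpa using hgH
  apply c.valid
  rw [SimpleGraph.addCayley_adj']
  refine ⟨?_, ⟨g, hgH⟩, hgX, ?_⟩
  · intro h1
    have h2 := congrArg Subtype.val h1
    simp only at h2
    rw [hcos] at h2
    exact hne (sub_left_injective h2)
  · rcases h with h | h
    · left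
      apply Subtype.ext
      show u - ((u : Γ ⧸ H).out : Γ) + g = v - ((v : Γ ⧸ H).out : Γ)
      rw [hcos, ← h]; abel
    · right
      apply Subtype.ext
      show u - ((u : Γ ⧸ H).out : Γ) = v - ((v : Γ ⧸ H).out : Γ) + g
      rw [hcos, h]; abel

theorem exp_main (M r : ℕ) (hr : 1 ≤ r) : ∀ k : ℕ, ∃ C : ℕ, ∀ (Γ : Type) [AddCommGroup Γ]
    [Fintype Γ] [DecidableEq Γ] (A : Finset Γ), (∀ x : Γ, r • x = 0) → -A = A → 0 ∉ A →
    (SimpleGraph.addCayley (A : Set Γ)).CliqueFree (k + 1) →
    IsEmpty (cube M ↪g SimpleGraph.addCayley (A : Set Γ)) →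
    (SimpleGraph.addCayley (A : Set Γ)).Colorable C := by
  classical
  intro k
  induction k with
  | zero =>
    refine ⟨0, ?_⟩
    intro Γ _ _ _ A _ _ _ hfree _
    exfalso
    apply hfree {0}
    rw [SimpleGraph.isNClique_iff]
    simp
  | succ k ih =>
    obtain ⟨C', hC'⟩ := ih
    obtain ⟨N, hN⟩ := Pool.Agent.W259.GS.noShatter (cube M) (Pool.Agent.TH283.CG.cube_colorable M) (k + 2)
    obtain ⟨Cp, dp, hpk⟩ := Pool.Agent.TH589.CG.packing_poly N
    obtain ⟨K, L, hpieces⟩ := pieces M
    obtain ⟨L', hsub⟩ := subgroup Cp dp K r (k + 2) hr (by omega)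
    refine ⟨((max 3 C') ^ L') ^ L, ?_⟩
    intro Γ _ _ _ A htor hA h0 hfree hemp
    have h1D : 1 ≤ max 3 C' := le_trans (by norm_num) (le_max_left _ _)
    have hadj : ∀ u v, (SimpleGraph.addCayley (A : Set Γ)).Adj u v ↔ v - u ∈ A := by
      intro u v
      rw [SimpleGraph.addCayley_adj']
      constructor
      · rintro ⟨hne, g, hg, h | h⟩
        · rw [← h, add_sub_cancel_left]
          exact hg
        · rw [h, ← hA, Finset.mem_neg', neg_sub, add_sub_cancel_left]
          exact hg
      · intro h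
        refine ⟨?_, v - u, h, Or.inl (by abel)⟩
        intro h'
        rw [h', sub_self] at h
        exact h0 h
    by_cases hne : A.Nonempty
    swap
    · have hno : ∀ u v, ¬ (SimpleGraph.addCayley (A : Set Γ)).Adj u v := by
        intro u v h
        rw [hadj] at h
        exact hne ⟨_, h⟩
      have hcol : (SimpleGraph.addCayley (A : Set Γ)).Coloring (Fin 1) :=
        SimpleGraph.Coloring.mk (fun _ => 0) (by
          intro u v h
          exact absurd h (hno u v))
      have h2 := hcol.colorable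
      rw [Fintype.card_fin] at h2
      exact h2.mono (Nat.one_le_pow _ _ (Nat.one_le_pow _ _ h1D))
    have hPM : P M A {0} := Pool.Agent.TH967.CG.cube_emb M Γ A hA h0 hemp
    have hpack : Pack Cp dp A := by
      intro R U q hq hR hU
      have hSh := fun X hX => hN Γ (SimpleGraph.addCayley (A : Set Γ)) X hfree hemp hX
      apply hpk Γ (SimpleGraph.addCayley (A : Set Γ)) R U q hq hR hSh
      intro u hu v hv huv
      refine (hU u hu v hv huv).trans (Nat.mul_le_mul_left q (Finset.card_le_card ?_))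
      intro z hz
      have hz2 := Finset.mem_filter.1 hz
      refine (@Finset.mem_filter _ _ (_) _ _).2 ⟨hz2.1, ?_⟩
      rw [hadj, hadj]
      exact hz2.2
    obtain ⟨s, S, hs, hS, hcover⟩ := hpieces Γ A hA hne hPM
    apply colorable_union (SimpleGraph.addCayley (A : Set Γ))
      (fun p : s => SimpleGraph.addCayley (S p : Set Γ)) ((max 3 C') ^ L') L
      (Nat.one_le_pow _ _ h1D)
    · rw [Fintype.card_coe]
      exact hs
    · intro u v huv
      have huv' := (hadj u v).1 huv
      obtain ⟨p, hp⟩ := hcover _ huv'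
      refine ⟨p, ?_⟩
      rw [SimpleGraph.addCayley_adj']
      exact ⟨huv.ne, v - u, hp, Or.inl (by abel)⟩
    intro p
    obtain ⟨hSA, hSne, hSn, hSK⟩ := hS p
    obtain ⟨H, hH, Y, hY, hYS⟩ := hsub Γ A (S p) htor hA hSA hSne hSn hSK hpack
    apply colorable_union (SimpleGraph.addCayley (S p : Set Γ))
      (fun y : Y => SimpleGraph.addCayley {x : Γ | x ∈ S p ∧ x - y ∈ H}) (max 3 C') L' h1D
    · rw [Fintype.card_coe]
      exact hY
    · intro u v huv
      rw [SimpleGraph.addCayley_adj'] at huv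
      obtain ⟨hne, g, hg, h⟩ := huv
      obtain ⟨y, hy, hgy⟩ := hYS g hg
      refine ⟨⟨y, hy⟩, ?_⟩
      rw [SimpleGraph.addCayley_adj']
      exact ⟨hne, g, ⟨hg, hgy⟩, h⟩
    rintro ⟨y, hy⟩
    by_cases hyH : y ∈ H
    · -- directions in the subgroup
      have hcolH : (SimpleGraph.addCayley {h : H | (h : Γ) ∈ (A : Set Γ)}).Colorable C' := by
        obtain ⟨AH, hAH⟩ : ∃ AH : Finset H, AH = Finset.univ.filter (fun h : H => (h : Γ) ∈ A) :=
          ⟨_, rfl⟩
        have hmem : ∀ h : H, h ∈ AH ↔ (h : Γ) ∈ A := by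
          intro h
          rw [hAH, Finset.mem_filter]
          simp
        have hset : {h : H | (h : Γ) ∈ (A : Set Γ)} = (AH : Set H) := by
          ext h
          rw [Set.mem_ofPred_eq, Finset.mem_coe, Finset.mem_coe, hmem]
        have hadjH : ∀ u v : H, (SimpleGraph.addCayley (AH : Set H)).Adj u v ↔
            (v : Γ) - (u : Γ) ∈ A := by
          intro u v
          rw [SimpleGraph.addCayley_adj']
          constructor
          · rintro ⟨hne, g, hg, h | h⟩
            · rw [← h]
              have := (hmem g).1 hg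
              simpa using this
            · rw [h, ← hA, Finset.mem_neg', neg_sub]
              have := (hmem g).1 hg
              simpa using this
          · intro h
            refine ⟨?_, v - u, ?_, Or.inl (by abel)⟩
            · intro h'
              rw [h', sub_self] at h
              exact h0 h
            · rw [Finset.mem_coe, hmem]
              exact h
        rw [hset]
        apply hC' H AH
        · intro x
          apply Subtype.ext
          exact htor x
        · ext h
          rw [Finset.mem_neg', hmem, hmem]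
          show -(h : Γ) ∈ A ↔ _
          rw [← Finset.mem_neg', hA]
        · rw [hmem]
          exact h0
        · -- clique number
          intro t ht
          have htc := ht.card_eq
          obtain ⟨q₁, hq₁⟩ : t.Nonempty := by
            rw [← Finset.card_pos, htc]
            omega
          have hex : ∃ x ∈ S p, ∀ q ∈ t, x - ((q : Γ) - (q₁ : Γ)) ∈ A := by
            by_contra hno
            push Not at hno
            have h3 : S p ⊆ t.biUnion (fun q => (S p).filter
                (fun x => x - ((q : Γ) - (q₁ : Γ)) ∉ A)) := by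
              intro x hx
              obtain ⟨q, hq, hq2⟩ := hno x hx
              exact Finset.mem_biUnion.2 ⟨q, hq, Finset.mem_filter.2 ⟨hx, hq2⟩⟩
            have h4 := (Finset.card_le_card h3).trans Finset.card_biUnion_le
            have h5 : (k + 2) * (S p).card ≤ (k + 1) * (S p).card := by
              calc (k + 2) * (S p).card ≤ (k + 2) * ∑ q ∈ t, ((S p).filter
                    (fun x => x - ((q : Γ) - (q₁ : Γ)) ∉ A)).card := Nat.mul_le_mul_left _ h4
                _ = ∑ q ∈ t, (k + 2) * ((S p).filter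
                    (fun x => x - ((q : Γ) - (q₁ : Γ)) ∉ A)).card := by rw [Finset.mul_sum]
                _ ≤ ∑ _q ∈ t, (S p).card := Finset.sum_le_sum (fun q _ =>
                    hH _ (H.sub_mem q.2 q₁.2))
                _ = (k + 1) * (S p).card := by rw [Finset.sum_const, htc, smul_eq_mul]
            have h6 : 0 < (S p).card := hSne.card_pos
            have h7 : k + 2 ≤ k + 1 := Nat.le_of_mul_le_mul_right h5 h6
            omega
          obtain ⟨x, hx, hxq⟩ := hex
          have hz : ∀ q ∈ t, (SimpleGraph.addCayley (A : Set Γ)).Adj (q : Γ) ((q₁ : Γ) + x) := by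
            intro q hq
            rw [hadj]
            have h3 := hxq q hq
            have h4 : (q₁ : Γ) + x - q = x - ((q : Γ) - (q₁ : Γ)) := by abel
            rw [h4]
            exact h3
          apply hfree (insert ((q₁ : Γ) + x) (t.map ⟨Subtype.val, Subtype.val_injective⟩))
          have ht' : (SimpleGraph.addCayley (A : Set Γ)).IsNClique (k + 1)
              (t.map ⟨Subtype.val, Subtype.val_injective⟩) := by
            rw [SimpleGraph.isNClique_iff]
            refine ⟨?_, by rw [Finset.card_map, htc]⟩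
            intro a ha b hb hab
            rw [Finset.mem_coe, Finset.mem_map] at ha hb
            obtain ⟨a', ha', rfl⟩ := ha
            obtain ⟨b', hb', rfl⟩ := hb
            have hne' : a' ≠ b' := fun h => hab (by rw [h])
            have h3 := ht.isClique (Finset.mem_coe.2 ha') (Finset.mem_coe.2 hb') hne'
            rw [hadjH] at h3
            rw [hadj]
            exact h3
          exact ht'.insert (by
            intro b hb
            rw [Finset.mem_map] at hb
            obtain ⟨b', hb', rfl⟩ := hb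
            exact (hz b' hb').symm)
        · refine ⟨fun f => hemp.false ?_⟩
          refine f.trans ⟨⟨Subtype.val, Subtype.val_injective⟩, ?_⟩
          intro a b
          show (SimpleGraph.addCayley (A : Set Γ)).Adj (a : Γ) (b : Γ) ↔ _
          rw [hadj, hadjH]
      have h1 := sub_color H (A : Set Γ) C' hcolH
      refine (h1.mono_left ?_).mono (le_max_right _ _)
      apply SimpleGraph.addCayley_mono
      intro x hx
      obtain ⟨hx1, hx2⟩ := hx
      refine ⟨hSA hx1, ?_⟩
      have := H.add_mem hx2 hyH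
      simpa using this
    · obtain ⟨c, hc⟩ := coset_color H y hyH
      have h1 : (SimpleGraph.addCayley {x : Γ | x ∈ S p ∧ x - y ∈ H}).Colorable 3 := by
        refine ⟨SimpleGraph.Coloring.mk c ?_⟩
        intro u v huv
        rw [SimpleGraph.addCayley_adj'] at huv
        obtain ⟨hne, g, ⟨_, hg⟩, h⟩ := huv
        apply hc
        rcases h with h | h
        · left
          have : v - u - y = g - y := by rw [← h]; abel
          rw [this]
          exact hg
        · right
          have : v - u + y = -(g - y) := by rw [h]; abel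
          rw [this]
          exact H.neg_mem hg
      exact h1.mono (le_max_left _ _)

end Pool.Agent.TH346.CG
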