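import Pool.Agent.TH346.CG.Exp

/-!
# Final forms: cubes, arbitrary generating sets
-/

namespace Pool.Agent.TH346.CG

open Finset Pool.Agent.TH346.LG
open scoped Pointwise

/-- A symmetric finite generating set without `0`. -/
theorem norm_gen {Γ : Type} [AddCommGroup Γ] [Fintype Γ] [DecidableEq Γ] (A : Set Γ) :
    ∃ A' : Finset Γ, -A' = A' ∧ 0 ∉ A' ∧
      (∀ u v, (SimpleGraph.addCayley A).Adj u v ↔ v - u ∈ A') ∧
      SimpleGraph.addCayley A = SimpleGraph.addCayley (A' : Set Γ) := by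
  classical
  obtain ⟨A', hA'⟩ : ∃ A' : Finset Γ, A' = Finset.univ.filter (fun x => x ≠ 0 ∧ (x ∈ A ∨ -x ∈ A)) :=
    ⟨_, rfl⟩
  have hmemA' : ∀ x, x ∈ A' ↔ x ≠ 0 ∧ (x ∈ A ∨ -x ∈ A) := by
    intro x
    rw [hA', Finset.mem_filter]
    simp
  have hadj : ∀ u v, (SimpleGraph.addCayley A).Adj u v ↔ v - u ∈ A' := by
    intro u v
    rw [SimpleGraph.addCayley_adj', hmemA']
    constructor
    · rintro ⟨hne, g, hg, h | h⟩
      · refine ⟨fun h0 => hne (sub_eq_zero.1 h0).symm, Or.inl ?_⟩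
        rw [← h, add_sub_cancel_left]
        exact hg
      · refine ⟨fun h0 => hne (sub_eq_zero.1 h0).symm, Or.inr ?_⟩
        rw [h, neg_sub, add_sub_cancel_left]
        exact hg
    · rintro ⟨h0, h | h⟩
      · exact ⟨fun h' => h0 (by rw [h', sub_self]), _, h, Or.inl (by abel)⟩
      · exact ⟨fun h' => h0 (by rw [h', sub_self]), _, h, Or.inr (by abel)⟩
  have hA'neg : -A' = A' := by
    ext x
    rw [Finset.mem_neg', hmemA', hmemA', neg_neg, neg_ne_zero, or_comm]
  have h0A' : (0 : Γ) ∉ A' := fun h => ((hmemA' 0).1 h).1 rfl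
  refine ⟨A', hA'neg, h0A', hadj, ?_⟩
  ext u v
  rw [hadj, SimpleGraph.addCayley_adj']
  constructor
  · intro h
    refine ⟨?_, v - u, h, Or.inl (by abel)⟩
    intro h'
    rw [h', sub_self] at h
    exact h0A' h
  · rintro ⟨hne, g, hg, h | h⟩
    · rw [← h, add_sub_cancel_left]
      exact hg
    · rw [h, ← hA'neg, Finset.mem_neg', neg_sub, add_sub_cancel_left]
      exact hg

/-- Triangle-free Cayley graphs without a large induced cube. -/
theorem tri_cube (M : ℕ) : ∃ C : ℕ, ∀ (Γ : Type) [AddCommGroup Γ] [Fintype Γ] (A : Set Γ),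
    (SimpleGraph.addCayley A).CliqueFree 3 →
    IsEmpty (cube M ↪g SimpleGraph.addCayley A) →
    (SimpleGraph.addCayley A).Colorable C := by
  classical
  obtain ⟨K', L, hpieces⟩ := pieces M
  obtain ⟨C, hC⟩ := add_main (cube M) (Pool.Agent.TH283.CG.cube_colorable M) K'
  refine ⟨(C + 1) ^ L, ?_⟩
  intro Γ _ _ A h3 hemp
  obtain ⟨A', hA'neg, h0A', hadj, hGeq⟩ := norm_gen A
  by_cases hne : A'.Nonempty
  · have hPM : P M A' {0} := Pool.Agent.TH967.CG.cube_emb M Γ A' hA'neg h0A' (by rw [← hGeq]; exact hemp)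
    obtain ⟨s, S, hs, hS, hcover⟩ := hpieces Γ A' hA'neg hne hPM
    apply colorable_union (SimpleGraph.addCayley A)
      (fun p : s => SimpleGraph.addCayley (S p : Set Γ)) (C + 1) L (by omega)
    · rw [Fintype.card_coe]
      exact hs
    · intro u v huv
      rw [hadj] at huv
      obtain ⟨p, hp⟩ := hcover (v - u) huv
      refine ⟨p, ?_⟩
      rw [SimpleGraph.addCayley_adj']
      refine ⟨?_, v - u, hp, Or.inl (by abel)⟩
      intro h'
      rw [h', sub_self] at huv
      exact h0A' huv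
    · intro p
      obtain ⟨hSA, hSne, hSn, hSK⟩ := hS p
      refine (hC Γ A' (S p) h0A' hSA hSn hSK ?_ ?_).mono (by omega)
      · rw [← hGeq]; exact h3
      · rw [← hGeq]; exact hemp
  · have hno : ∀ u v, ¬ (SimpleGraph.addCayley A).Adj u v := by
      intro u v h
      rw [hadj] at h
      exact hne ⟨_, h⟩
    have hcol : (SimpleGraph.addCayley A).Coloring (Fin 1) :=
      SimpleGraph.Coloring.mk (fun _ => 0) (by
        intro u v h
        exact absurd h (hno u v))
    have h2 := hcol.colorable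
    rw [Fintype.card_fin] at h2
    exact h2.mono (Nat.one_le_pow _ _ (by omega))

/-- Cayley graphs of groups of bounded exponent without a large induced cube. -/
theorem exp_cube (M r : ℕ) (hr : 1 ≤ r) : ∃ f : ℕ → ℕ, ∀ (Γ : Type) [AddCommGroup Γ] [Fintype Γ]
    (A : Set Γ), (∀ x : Γ, r • x = 0) → IsEmpty (cube M ↪g SimpleGraph.addCayley A) →
    (SimpleGraph.addCayley A).Colorable (f (SimpleGraph.addCayley A).cliqueNum) := by
  classical
  choose f hf using exp_main M r hr
  refine ⟨f, ?_⟩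
  intro Γ _ _ A htor hemp
  obtain ⟨A', hA'neg, h0A', hadj, hGeq⟩ := norm_gen A
  rw [hGeq]
  apply hf _ Γ A' htor hA'neg h0A'
  · intro s hs
    have h := hs.isClique.card_le_cliqueNum
    rw [hs.card_eq] at h
    omega
  · rw [← hGeq]
    exact hemp

end Pool.Agent.TH346.CG
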