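import Pool.Agent.TH346.CG.Near
import Pool.Agent.TH346.CG.Fin

/-!
# `K₄`-free Cayley graphs of abelian groups
-/

namespace Pool.Agent.TH346.CG

open Finset Pool.Agent.TH346.LG
open scoped Pointwise

/-- Colouring a set of small tripling none of whose elements is a near-period. -/
theorem region_color (K L : ℕ) : ∃ D : ℕ, ∀ (Γ : Type) [AddCommGroup Γ] [Fintype Γ]
    [DecidableEq Γ] (S E : Finset Γ), S.Nonempty → -S = S →
    (S + S + S).card ≤ K * S.card → -E = E → 0 ∈ E → E ⊆ ks 2 (insert 0 S) →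
    S.card ≤ L * E.card → (∀ a ∈ S, a ∉ ks 4 E) →
    (SimpleGraph.addCayley (S : Set Γ)).Colorable D := by
  classical
  refine ⟨2 * (4 * K) ^ 9 * L + 1, ?_⟩
  intro Γ _ _ _ S E hSne hS hK hE h0E hE2 hL hno
  obtain ⟨T, hT⟩ : ∃ T, T = insert 0 S := ⟨_, rfl⟩
  rw [← hT] at hE2
  have hT0 : (0 : Γ) ∈ T := by rw [hT]; exact Finset.mem_insert_self _ _
  have hTn : -T = T := by rw [hT]; exact insert_neg S hS
  have hST : S ⊆ T := by rw [hT]; exact Finset.subset_insert _ _
  have hEpos : 0 < E.card := Finset.card_pos.2 ⟨0, h0E⟩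
  -- maximal family of disjoint translates
  obtain ⟨Pr, hPr⟩ : ∃ Pr : Finset Γ → Prop, ∀ Z, Pr Z ↔
      ∀ z ∈ Z, ∀ z' ∈ Z, z ≠ z' → Disjoint (E.image fun e => z + e) (E.image fun e => z' + e) :=
    ⟨_, fun Z => Iff.rfl⟩
  have hne : ((Finset.univ : Finset (Finset Γ)).filter Pr).Nonempty :=
    ⟨∅, Finset.mem_filter.2 ⟨Finset.mem_univ _, (hPr ∅).2 (by simp)⟩⟩
  obtain ⟨Z, hZ, hmax⟩ := Finset.exists_max_image _ Finset.card hne
  have hZd := (hPr Z).1 (Finset.mem_filter.1 hZ).2
  have hnear : ∀ u : Γ, ∃ z ∈ Z, u - z ∈ ks 2 E := by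
    intro u
    by_cases huZ : u ∈ Z
    · refine ⟨u, huZ, ?_⟩
      rw [sub_self]
      exact ks_mono E h0E (Nat.zero_le 2) (by simp [ks])
    · by_contra hnone
      push Not at hnone
      have hdis : ∀ z ∈ Z, Disjoint (E.image fun e => u + e) (E.image fun e => z + e) := by
        intro z hz
        rw [Finset.disjoint_left]
        intro x hx hx'
        obtain ⟨e, he, hxe⟩ := Finset.mem_image.1 hx
        obtain ⟨e', he', hxe'⟩ := Finset.mem_image.1 hx'
        apply hnone z hz
        have h1 : u - z = (0 + e') + -e := by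
          have h2 : z + e' = u + e := hxe'.trans hxe.symm
          have h3 : u = z + e' - e := by rw [h2]; abel
          rw [h3]; abel
        rw [h1]
        refine Finset.add_mem_add (Finset.add_mem_add (by simp [ks]) he') ?_
        rw [← hE, Finset.mem_neg', neg_neg]
        exact he
      have h2 : insert u Z ∈ (Finset.univ : Finset (Finset Γ)).filter Pr := by
        rw [Finset.mem_filter, hPr]
        refine ⟨Finset.mem_univ _, ?_⟩
        intro x hx y hy hxy
        rcases Finset.mem_insert.1 hx with h | h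
        · rcases Finset.mem_insert.1 hy with h' | h'
          · exact absurd (h.trans h'.symm) hxy
          · rw [h]; exact hdis y h'
        · rcases Finset.mem_insert.1 hy with h' | h'
          · rw [h']; exact (hdis x h).symm
          · exact hZd x h y h' hxy
      have h3 := hmax _ h2
      rw [Finset.card_insert_of_notMem huZ] at h3
      omega
  choose z hz hz2 using hnear
  have hks4 : ks 2 E ⊆ ks 4 T := by
    intro x hx
    obtain ⟨y, hy, e, he, rfl⟩ := Finset.mem_add.1 (show x ∈ ks 1 E + E from hx)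
    have hy' : y ∈ E := by
      have h1 : y ∈ ({0} : Finset Γ) + E := hy
      rwa [Finset.singleton_zero, zero_add] at h1
    have h2 := Finset.add_mem_add (hE2 hy') (hE2 he)
    rwa [ks_add] at h2
  have hneg2 : ∀ x, x ∈ ks 2 E → -x ∈ ks 2 E := by
    intro x hx
    rw [← ks_neg E hE 2, Finset.mem_neg', neg_neg]
    exact hx
  -- the region graph
  obtain ⟨κ, hκ⟩ := greedy (X := Z) (fun x y => (y : Γ) - (x : Γ) ∈ ks 9 T)
    (by
      intro x y h
      rw [← ks_neg T hTn 9, Finset.mem_neg', neg_sub]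
      exact h)
    (2 * (4 * K) ^ 9 * L + 1) (by
      intro x Y hY
      have h1 : (Y.biUnion fun y => E.image fun e => (y : Γ) + e) ⊆
          (ks 11 T).image (fun t => (x : Γ) + t) := by
        intro t ht
        obtain ⟨y, hy, ht⟩ := Finset.mem_biUnion.1 ht
        obtain ⟨e, he, rfl⟩ := Finset.mem_image.1 ht
        rw [Finset.mem_image]
        refine ⟨(y : Γ) - (x : Γ) + e, ?_, by abel⟩
        have h2 := Finset.add_mem_add (hY y hy) (hE2 he)
        rwa [ks_add] at h2
      have h2 : (Y.biUnion fun y => E.image fun e => (y : Γ) + e).card = Y.card * E.card := by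
        rw [Finset.card_biUnion]
        · rw [Finset.sum_const_nat (m := E.card)]
          intro y _
          exact Finset.card_image_of_injective _ (fun a b h => add_left_cancel h)
        · intro a _ b _ hab
          exact hZd a a.2 b b.2 (fun h => hab (Subtype.ext h))
      have h3 := (Finset.card_le_card h1).trans Finset.card_image_le
      have h4 := card_ks_T S hS hSne K hK 11 (by norm_num)
      rw [← hT] at h4
      rw [h2] at h3
      have h5 : Y.card * E.card ≤ 2 * (4 * K) ^ 9 * L * E.card := by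
        calc Y.card * E.card ≤ 2 * (4 * K) ^ 9 * S.card := h3.trans h4
          _ ≤ 2 * (4 * K) ^ 9 * (L * E.card) := Nat.mul_le_mul_left _ hL
          _ = _ := by ring
      have h6 := Nat.le_of_mul_le_mul_right h5 hEpos
      omega)
  refine ⟨SimpleGraph.Coloring.mk (fun u => κ ⟨z u, hz u⟩) ?_⟩
  intro u v huv
  have huvS : v - u ∈ S := by
    rw [SimpleGraph.addCayley_adj'] at huv
    obtain ⟨_, g, hg, h | h⟩ := huv
    · rw [← h, add_sub_cancel_left]
      exact hg
    · rw [h, ← hS, Finset.mem_neg', neg_sub, add_sub_cancel_left]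
      exact hg
  apply hκ
  · intro h
    have h1 : z u = z v := congrArg Subtype.val h
    apply hno _ huvS
    have h2 : v - u = (v - z v) + -(u - z u) := by rw [h1]; abel
    rw [h2, ← ks_add E 2 2]
    exact Finset.add_mem_add (hz2 v) (hneg2 _ (hz2 u))
  · show z v - z u ∈ ks 9 T
    have h2 : z v - z u = (-(v - z v) + (u - z u)) + (v - u) := by abel
    rw [h2]
    show _ ∈ ks 8 T + T
    apply Finset.add_mem_add _ (hST huvS)
    rw [← ks_add T 4 4]
    exact Finset.add_mem_add (hks4 (hneg2 _ (hz2 v))) (hks4 (hz2 u))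

/-- `K₄`-free Cayley graphs without a large induced cube. -/
theorem four_main (M : ℕ) : ∃ C : ℕ, ∀ (Γ : Type) [AddCommGroup Γ] [Fintype Γ]
    [DecidableEq Γ] (A : Finset Γ), -A = A → 0 ∉ A →
    (SimpleGraph.addCayley (A : Set Γ)).CliqueFree 4 →
    IsEmpty (cube M ↪g SimpleGraph.addCayley (A : Set Γ)) →
    (SimpleGraph.addCayley (A : Set Γ)).Colorable C := by
  classical
  obtain ⟨N, hN⟩ := Pool.Agent.W259.GS.noShatter (cube M)
    (Pool.Agent.TH283.CG.cube_colorable M) 4
  obtain ⟨Cp, dp, hpk⟩ := Pool.Agent.TH589.CG.packing_poly N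
  obtain ⟨K, L, hpieces⟩ := pieces M
  obtain ⟨L', hcov⟩ := near_cover Cp dp K 16 9 (by norm_num) (by norm_num)
  obtain ⟨D, hD⟩ := region_color K L'
  refine ⟨(D + 1) ^ L, ?_⟩
  intro Γ _ _ _ A hA h0 hfree hemp
  have hadj : ∀ u v, (SimpleGraph.addCayley (A : Set Γ)).Adj u v ↔ v - u ∈ A := by
    intro u v
    rw [SimpleGraph.addCayley_adj']
    constructor
    · rintro ⟨hne, g, hg, h | h⟩
      · rw [← h, add_sub_cancel_left]
        exact hg
      · rw [h, ← hA, Finset.mem_neg', neg_sub, add_sub_cancel_left]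
        exact hg
    · intro h
      refine ⟨?_, v - u, h, Or.inl (by abel)⟩
      intro h'
      rw [h', sub_self] at h
      exact h0 h
  have hneg : ∀ x, x ∈ A → -x ∈ A := by
    intro x hx
    rw [← hA, Finset.mem_neg', neg_neg]
    exact hx
  by_cases hne : A.Nonempty
  swap
  · have hno : ∀ u v, ¬ (SimpleGraph.addCayley (A : Set Γ)).Adj u v := by
      intro u v h
      rw [hadj] at h
      exact hne ⟨_, h⟩
    have hcol : (SimpleGraph.addCayley (A : Set Γ)).Coloring (Fin 1) :=
      SimpleGraph.Coloring.mk (fun _ => 0) (by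
        intro u v h
        exact absurd h (hno u v))
    have h2 := hcol.colorable
    rw [Fintype.card_fin] at h2
    exact h2.mono (Nat.one_le_pow _ _ (by omega))
  have hPM : P M A {0} := Pool.Agent.TH967.CG.cube_emb M Γ A hA h0 hemp
  have hpack : Pack Cp dp A := by
    intro R U q hq hR hU
    have hSh := fun X hX => hN Γ (SimpleGraph.addCayley (A : Set Γ)) X hfree hemp hX
    apply hpk Γ (SimpleGraph.addCayley (A : Set Γ)) R U q hq hR hSh
    intro u hu v hv huv
    refine (hU u hu v hv huv).trans (Nat.mul_le_mul_left q (Finset.card_le_card ?_))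
    intro z hz
    have hz2 := Finset.mem_filter.1 hz
    refine (@Finset.mem_filter _ _ (_) _ _).2 ⟨hz2.1, ?_⟩
    rw [hadj, hadj]
    exact hz2.2
  obtain ⟨s, S, hs, hS, hcover⟩ := hpieces Γ A hA hne hPM
  apply colorable_union (SimpleGraph.addCayley (A : Set Γ))
    (fun p : s => SimpleGraph.addCayley (S p : Set Γ)) (D + 1) L (by omega)
  · rw [Fintype.card_coe]
    exact hs
  · intro u v huv
    have huv' := (hadj u v).1 huv
    obtain ⟨p, hp⟩ := hcover _ huv'
    refine ⟨p, ?_⟩
    rw [SimpleGraph.addCayley_adj']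
    exact ⟨huv.ne, v - u, hp, Or.inl (by abel)⟩
  intro p
  obtain ⟨hSA, hSne, hSn, hSK⟩ := hS p
  obtain ⟨T, hT⟩ : ∃ T, T = insert 0 (S p) := ⟨_, rfl⟩
  have hT0 : (0 : Γ) ∈ T := by rw [hT]; exact Finset.mem_insert_self _ _
  have hTn : -T = T := by rw [hT]; exact insert_neg (S p) hSn
  have hST : S p ⊆ T := by rw [hT]; exact Finset.subset_insert _ _
  obtain ⟨E, hEdef⟩ : ∃ E : Finset Γ, E = (ks 2 T).filter
      (fun a => 16 * nrm A (ks 9 T) a ≤ (S p).card) := ⟨_, rfl⟩
  have hE : ∀ a, a ∈ E ↔ a ∈ ks 2 T ∧ 16 * nrm A (ks 9 T) a ≤ (S p).card := by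
    intro a
    rw [hEdef, Finset.mem_filter]
  have h0E : (0 : Γ) ∈ E := by
    rw [hE]
    refine ⟨ks_mono T hT0 (Nat.zero_le 2) (by simp [ks]), ?_⟩
    have : nrm A (ks 9 T) 0 = 0 := by
      unfold nrm
      rw [Finset.card_eq_zero, Finset.filter_eq_empty_iff]
      intro t _
      rw [sub_zero]
      exact fun h => h Iff.rfl
    rw [this, Nat.mul_zero]
    exact Nat.zero_le _
  have hEn : -E = E := by
    ext x
    rw [Finset.mem_neg', hE, hE, nrm_neg A _ hA (ks_neg T hTn 9), ← Finset.mem_neg',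
      ks_neg T hTn]
  have hcard : (S p).card ≤ L' * E.card :=
    hcov Γ A (S p) E hA hSne hSn hSK hpack (by rw [← hT]; exact hE)
  refine (hD Γ (S p) E hSne hSn hSK hEn h0E ?_ hcard ?_).mono (by omega)
  · intro a ha
    rw [← hT]
    exact ((hE a).1 ha).1
  intro a haS ha
  -- `a` is a near-period: a clique of size four
  have h1 := Pool.Agent.TH511.CG.nrm_ks A T E hT0 hTn 1 4 2 16 (S p).card
    (fun e he => (hE e).1 he) a ha
  have hsub1 : ((S p).filter fun t => t - a ∉ A).card ≤ nrm A (ks 1 T) a := by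
    unfold nrm
    apply Finset.card_le_card
    intro t ht
    rw [Finset.mem_filter] at ht ⊢
    refine ⟨?_, fun h5 => ht.2 (h5.1 (hSA ht.1))⟩
    show t ∈ ({0} : Finset Γ) + T
    rw [Finset.singleton_zero, zero_add]
    exact hST ht.1
  have hsub2 : ((S p).filter fun t => t + a ∉ A).card ≤ nrm A (ks 1 T) a := by
    rw [← nrm_neg A _ hA (ks_neg T hTn 1)]
    unfold nrm
    apply Finset.card_le_card
    intro t ht
    rw [Finset.mem_filter] at ht ⊢
    refine ⟨?_, fun h5 => ht.2 ?_⟩
    · show t ∈ ({0} : Finset Γ) + T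
      rw [Finset.singleton_zero, zero_add]
      exact hST ht.1
    · have h6 := h5.1 (hSA ht.1)
      rwa [sub_neg_eq_add] at h6
  have hex : ∃ t ∈ S p, t - a ∈ A ∧ t + a ∈ A := by
    by_contra hno
    push Not at hno
    have h3 : S p ⊆ ((S p).filter fun t => t - a ∉ A) ∪ ((S p).filter fun t => t + a ∉ A) := by
      intro t ht
      rw [Finset.mem_union, Finset.mem_filter, Finset.mem_filter]
      by_cases h : t - a ∈ A
      · exact Or.inr ⟨ht, hno t ht h⟩
      · exact Or.inl ⟨ht, h⟩
    have h4 := (Finset.card_le_card h3).trans (Finset.card_union_le _ _)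
    have h6 : 0 < (S p).card := hSne.card_pos
    omega
  obtain ⟨t, ht, ht1, ht2⟩ := hex
  have haA : a ∈ A := hSA haS
  have htA : t ∈ A := hSA ht
  apply hfree {0, a, t, t + a}
  have h3c : (SimpleGraph.addCayley (A : Set Γ)).IsNClique 3 {a, t, t + a} := by
    rw [SimpleGraph.is3Clique_triple_iff]
    refine ⟨?_, ?_, ?_⟩
    · rw [hadj]; exact ht1
    · rw [hadj, add_sub_cancel_right]; exact htA
    · rw [hadj, add_sub_cancel_left]; exact haA
  exact h3c.insert (by
    intro b hb
    rw [Finset.mem_insert, Finset.mem_insert, Finset.mem_singleton] at hb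
    rw [hadj, sub_zero]
    rcases hb with h | h | h
    · rw [h]; exact haA
    · rw [h]; exact htA
    · rw [h]; exact ht2)

/-- `K₄`-free Cayley graphs without a large induced cube, arbitrary sets of generators. -/
theorem four_cube (M : ℕ) : ∃ C : ℕ, ∀ (Γ : Type) [AddCommGroup Γ] [Fintype Γ] (A : Set Γ),
    (SimpleGraph.addCayley A).CliqueFree 4 →
    IsEmpty (cube M ↪g SimpleGraph.addCayley A) →
    (SimpleGraph.addCayley A).Colorable C := by
  classical
  obtain ⟨C, hC⟩ := four_main M
  refine ⟨C, ?_⟩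
  intro Γ _ _ A h3 hemp
  obtain ⟨A', hA'neg, h0A', hadj, hGeq⟩ := norm_gen A
  rw [hGeq]
  apply hC Γ A' hA'neg h0A'
  · rw [← hGeq]; exact h3
  · rw [← hGeq]; exact hemp

end Pool.Agent.TH346.CG
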