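import Pool.Agent.TH346.CG.Fin

/-!
# Covers of the generating set by linear forms, groups of prime exponent
-/

namespace Pool.Agent.TH346.CG

open Finset Pool.Agent.TH346.LG
open scoped Pointwise

theorem hom_separate_aux (p : ℕ) [Fact p.Prime] {Γ : Type} [AddCommGroup Γ] [Module (ZMod p) Γ]
    (H : AddSubgroup Γ) (y : Γ) (hy : y ∉ H) :
    ∃ φ : Γ →+ ZMod p, φ y ≠ 0 ∧ ∀ h ∈ H, φ h = 0 := by
  have hy' : y ∉ AddSubgroup.toZModSubmodule p H := fun h =>
    hy ((AddSubgroup.mem_toZModSubmodule p).1 h)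
  obtain ⟨f, hf, hf2⟩ := Submodule.exists_le_ker_of_notMem hy'
  exact ⟨f.toAddMonoidHom, hf, fun h hh =>
    LinearMap.mem_ker.1 (hf2 ((AddSubgroup.mem_toZModSubmodule p).2 hh))⟩

theorem hom_separate (p : ℕ) (hp : p.Prime) {Γ : Type} [AddCommGroup Γ] (htor : ∀ x : Γ, p • x = 0)
    (H : AddSubgroup Γ) (y : Γ) (hy : y ∉ H) :
    ∃ φ : Γ →+ ZMod p, φ y ≠ 0 ∧ ∀ h ∈ H, φ h = 0 :=
  @hom_separate_aux p (Fact.mk hp) Γ _ (AddCommGroup.zmodModule htor) H y hy

theorem hom_extend_aux (p : ℕ) [Fact p.Prime] {Γ : Type} [AddCommGroup Γ] [Module (ZMod p) Γ]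
    (H : AddSubgroup Γ) (φ : H →+ ZMod p) : ∃ ψ : Γ →+ ZMod p, ∀ h : H, ψ h = φ h := by
  obtain ⟨φ', hφ'⟩ : ∃ φ' : (AddSubgroup.toZModSubmodule p H : Submodule (ZMod p) Γ) →+ ZMod p,
      ∀ (x : Γ) (h : x ∈ AddSubgroup.toZModSubmodule p H) (h' : x ∈ H),
      φ' ⟨x, h⟩ = φ ⟨x, h'⟩ :=
    ⟨{ toFun := fun x => φ ⟨x.1, (AddSubgroup.mem_toZModSubmodule p).1 x.2⟩
       map_zero' := φ.map_zero
       map_add' := fun x y => φ.map_add ⟨x.1, (AddSubgroup.mem_toZModSubmodule p).1 x.2⟩
        ⟨y.1, (AddSubgroup.mem_toZModSubmodule p).1 y.2⟩ },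
      fun x h h' => rfl⟩
  obtain ⟨g, hg⟩ := LinearMap.exists_extend (φ'.toZModLinearMap p)
  refine ⟨g.toAddMonoidHom, ?_⟩
  rintro ⟨h, hh⟩
  have h1 := LinearMap.congr_fun hg ⟨h, (AddSubgroup.mem_toZModSubmodule p).2 hh⟩
  exact h1.trans (hφ' h _ hh)

theorem hom_extend (p : ℕ) (hp : p.Prime) {Γ : Type} [AddCommGroup Γ] (htor : ∀ x : Γ, p • x = 0)
    (H : AddSubgroup Γ) (φ : H →+ ZMod p) : ∃ ψ : Γ →+ ZMod p, ∀ h : H, ψ h = φ h :=
  @hom_extend_aux p (Fact.mk hp) Γ _ (AddCommGroup.zmodModule htor) H φ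

theorem lin_main (p₀ M : ℕ) (hp₀ : p₀.Prime) : ∀ k : ℕ, ∃ C : ℕ, ∀ (Γ : Type) [AddCommGroup Γ]
    [Fintype Γ] [DecidableEq Γ] (A : Finset Γ), (∀ x : Γ, p₀ • x = 0) → -A = A → 0 ∉ A →
    (SimpleGraph.addCayley (A : Set Γ)).CliqueFree (k + 1) →
    IsEmpty (cube M ↪g SimpleGraph.addCayley (A : Set Γ)) →
    ∃ F : Finset (Γ →+ ZMod p₀), F.card ≤ C ∧ ∀ a ∈ A, ∃ φ ∈ F, φ a ≠ 0 := by
  classical
  intro k
  induction k with
  | zero =>
    refine ⟨0, ?_⟩
    intro Γ _ _ _ A _ _ _ hfree _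
    exfalso
    apply hfree {0}
    rw [SimpleGraph.isNClique_iff]
    simp
  | succ k ih =>
    obtain ⟨C', hC'⟩ := ih
    obtain ⟨N, hN⟩ := Pool.Agent.W259.GS.noShatter (cube M) (Pool.Agent.TH283.CG.cube_colorable M) (k + 2)
    obtain ⟨Cp, dp, hpk⟩ := Pool.Agent.TH589.CG.packing_poly N
    obtain ⟨K, L, hpieces⟩ := pieces M
    obtain ⟨L', hsub⟩ := subgroup Cp dp K p₀ (k + 2) hp₀.one_lt.le (by omega)
    refine ⟨L * (L' * max 1 C'), ?_⟩
    intro Γ _ _ _ A htor hA h0 hfree hemp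
    have hadj : ∀ u v, (SimpleGraph.addCayley (A : Set Γ)).Adj u v ↔ v - u ∈ A := by
      intro u v
      rw [SimpleGraph.addCayley_adj']
      constructor
      · rintro ⟨hne, g, hg, h | h⟩
        · rw [← h, add_sub_cancel_left]
          exact hg
        · rw [h, ← hA, Finset.mem_neg', neg_sub, add_sub_cancel_left]
          exact hg
      · intro h
        refine ⟨?_, v - u, h, Or.inl (by abel)⟩
        intro h'
        rw [h', sub_self] at h
        exact h0 h
    by_cases hne : A.Nonempty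
    swap
    · exact ⟨∅, by simp, fun a ha => absurd ⟨a, ha⟩ hne⟩
    have hPM : P M A {0} := Pool.Agent.TH967.CG.cube_emb M Γ A hA h0 hemp
    have hpack : Pack Cp dp A := by
      intro R U q hq hR hU
      have hSh := fun X hX => hN Γ (SimpleGraph.addCayley (A : Set Γ)) X hfree hemp hX
      apply hpk Γ (SimpleGraph.addCayley (A : Set Γ)) R U q hq hR hSh
      intro u hu v hv huv
      refine (hU u hu v hv huv).trans (Nat.mul_le_mul_left q (Finset.card_le_card ?_))
      intro z hz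
      have hz2 := Finset.mem_filter.1 hz
      refine (@Finset.mem_filter _ _ (_) _ _).2 ⟨hz2.1, ?_⟩
      rw [hadj, hadj]
      exact hz2.2
    obtain ⟨s, S, hs, hS, hcover⟩ := hpieces Γ A hA hne hPM
    have hF : ∀ p : s, ∃ F : Finset (Γ →+ ZMod p₀), F.card ≤ L' * max 1 C' ∧
        ∀ a ∈ S p, ∃ φ ∈ F, φ a ≠ 0 := by
     intro p
     obtain ⟨hSA, hSne, hSn, hSK⟩ := hS p
     obtain ⟨H, hH, Y, hY, hYS⟩ := hsub Γ A (S p) htor hA hSA hSne hSn hSK hpack
     have hFy : ∀ y : Γ, ∃ F : Finset (Γ →+ ZMod p₀), F.card ≤ max 1 C' ∧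
         ∀ a ∈ S p, a - y ∈ H → ∃ φ ∈ F, φ a ≠ 0 := by
      intro y
      by_cases hyH : y ∈ H
      swap
      · obtain ⟨φ, hφ1, hφ2⟩ := hom_separate p₀ hp₀ htor H y hyH
        refine ⟨{φ}, by simp, fun a _ ha => ⟨φ, by simp, ?_⟩⟩
        have h1 := hφ2 _ ha
        rw [map_sub, sub_eq_zero] at h1
        rw [h1]
        exact hφ1
      have hcolH : ∃ F : Finset (H →+ ZMod p₀), F.card ≤ C' ∧
          ∀ h : H, (h : Γ) ∈ A → ∃ φ ∈ F, φ h ≠ 0 := by
        obtain ⟨AH, hAH⟩ : ∃ AH : Finset H, AH = Finset.univ.filter (fun h : H => (h : Γ) ∈ A) :=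
          ⟨_, rfl⟩
        have hmem : ∀ h : H, h ∈ AH ↔ (h : Γ) ∈ A := by
          intro h
          rw [hAH, Finset.mem_filter]
          simp
        suffices hmain : ∃ F : Finset (H →+ ZMod p₀), F.card ≤ C' ∧ ∀ a ∈ AH, ∃ φ ∈ F, φ a ≠ 0 by
          obtain ⟨F, h1, h2⟩ := hmain
          exact ⟨F, h1, fun h hh => h2 h ((hmem h).2 hh)⟩
        have hadjH : ∀ u v : H, (SimpleGraph.addCayley (AH : Set H)).Adj u v ↔
            (v : Γ) - (u : Γ) ∈ A := by
          intro u v
          rw [SimpleGraph.addCayley_adj']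
          constructor
          · rintro ⟨hne, g, hg, h | h⟩
            · rw [← h]
              have := (hmem g).1 hg
              simpa using this
            · rw [h, ← hA, Finset.mem_neg', neg_sub]
              have := (hmem g).1 hg
              simpa using this
          · intro h
            refine ⟨?_, v - u, ?_, Or.inl (by abel)⟩
            · intro h'
              rw [h', sub_self] at h
              exact h0 h
            · rw [Finset.mem_coe, hmem]
              exact h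
        apply hC' H AH
        · intro x
          apply Subtype.ext
          exact htor x
        · ext h
          rw [Finset.mem_neg', hmem, hmem]
          show -(h : Γ) ∈ A ↔ _
          rw [← Finset.mem_neg', hA]
        · rw [hmem]
          exact h0
        · -- clique number
          intro t ht
          have htc := ht.card_eq
          obtain ⟨q₁, hq₁⟩ : t.Nonempty := by
            rw [← Finset.card_pos, htc]
            omega
          have hex : ∃ x ∈ S p, ∀ q ∈ t, x - ((q : Γ) - (q₁ : Γ)) ∈ A := by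
            by_contra hno
            push Not at hno
            have h3 : S p ⊆ t.biUnion (fun q => (S p).filter
                (fun x => x - ((q : Γ) - (q₁ : Γ)) ∉ A)) := by
              intro x hx
              obtain ⟨q, hq, hq2⟩ := hno x hx
              exact Finset.mem_biUnion.2 ⟨q, hq, Finset.mem_filter.2 ⟨hx, hq2⟩⟩
            have h4 := (Finset.card_le_card h3).trans Finset.card_biUnion_le
            have h5 : (k + 2) * (S p).card ≤ (k + 1) * (S p).card := by
              calc (k + 2) * (S p).card ≤ (k + 2) * ∑ q ∈ t, ((S p).filter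
                    (fun x => x - ((q : Γ) - (q₁ : Γ)) ∉ A)).card := Nat.mul_le_mul_left _ h4
                _ = ∑ q ∈ t, (k + 2) * ((S p).filter
                    (fun x => x - ((q : Γ) - (q₁ : Γ)) ∉ A)).card := by rw [Finset.mul_sum]
                _ ≤ ∑ _q ∈ t, (S p).card := Finset.sum_le_sum (fun q _ =>
                    hH _ (H.sub_mem q.2 q₁.2))
                _ = (k + 1) * (S p).card := by rw [Finset.sum_const, htc, smul_eq_mul]
            have h6 : 0 < (S p).card := hSne.card_pos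
            have h7 : k + 2 ≤ k + 1 := Nat.le_of_mul_le_mul_right h5 h6
            omega
          obtain ⟨x, hx, hxq⟩ := hex
          have hz : ∀ q ∈ t, (SimpleGraph.addCayley (A : Set Γ)).Adj (q : Γ) ((q₁ : Γ) + x) := by
            intro q hq
            rw [hadj]
            have h3 := hxq q hq
            have h4 : (q₁ : Γ) + x - q = x - ((q : Γ) - (q₁ : Γ)) := by abel
            rw [h4]
            exact h3
          apply hfree (insert ((q₁ : Γ) + x) (t.map ⟨Subtype.val, Subtype.val_injective⟩))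
          have ht' : (SimpleGraph.addCayley (A : Set Γ)).IsNClique (k + 1)
              (t.map ⟨Subtype.val, Subtype.val_injective⟩) := by
            rw [SimpleGraph.isNClique_iff]
            refine ⟨?_, by rw [Finset.card_map, htc]⟩
            intro a ha b hb hab
            rw [Finset.mem_coe, Finset.mem_map] at ha hb
            obtain ⟨a', ha', rfl⟩ := ha
            obtain ⟨b', hb', rfl⟩ := hb
            have hne' : a' ≠ b' := fun h => hab (by rw [h])
            have h3 := ht.isClique (Finset.mem_coe.2 ha') (Finset.mem_coe.2 hb') hne'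
            rw [hadjH] at h3
            rw [hadj]
            exact h3
          exact ht'.insert (by
            intro b hb
            rw [Finset.mem_map] at hb
            obtain ⟨b', hb', rfl⟩ := hb
            exact (hz b' hb').symm)
        · refine ⟨fun f => hemp.false ?_⟩
          refine f.trans ⟨⟨Subtype.val, Subtype.val_injective⟩, ?_⟩
          intro a b
          show (SimpleGraph.addCayley (A : Set Γ)).Adj (a : Γ) (b : Γ) ↔ _
          rw [hadj, hadjH]
      obtain ⟨F, hF1, hF2⟩ := hcolH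
      choose ext hext using hom_extend p₀ hp₀ htor H
      refine ⟨F.image ext, Finset.card_image_le.trans (hF1.trans (le_max_right _ _)), ?_⟩
      intro a ha hay
      have haH : a ∈ H := by
        have := H.add_mem hay hyH
        simpa using this
      obtain ⟨φ, hφ, hφ2⟩ := hF2 ⟨a, haH⟩ (hSA ha)
      refine ⟨ext φ, Finset.mem_image_of_mem ext hφ, ?_⟩
      rw [hext φ ⟨a, haH⟩]
      exact hφ2
     choose Fy hFy1 hFy2 using hFy
     refine ⟨Y.biUnion Fy, ?_, ?_⟩
     · calc (Y.biUnion Fy).card ≤ ∑ y ∈ Y, (Fy y).card := Finset.card_biUnion_le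
         _ ≤ ∑ _y ∈ Y, max 1 C' := Finset.sum_le_sum (fun y _ => hFy1 y)
         _ = Y.card * max 1 C' := by rw [Finset.sum_const, smul_eq_mul]
         _ ≤ _ := Nat.mul_le_mul_right _ hY
     · intro a ha
       obtain ⟨y, hy, hay⟩ := hYS a ha
       obtain ⟨φ, hφ, hφ2⟩ := hFy2 y a ha hay
       exact ⟨φ, Finset.mem_biUnion.2 ⟨y, hy, hφ⟩, hφ2⟩
    choose F hF1 hF2 using hF
    refine ⟨Finset.univ.biUnion F, ?_, ?_⟩
    · calc (Finset.univ.biUnion F).card ≤ ∑ p : s, (F p).card := Finset.card_biUnion_le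
        _ ≤ ∑ _p : s, L' * max 1 C' := Finset.sum_le_sum (fun p _ => hF1 p)
        _ = s.card * (L' * max 1 C') := by
          rw [Finset.sum_const, smul_eq_mul, Finset.card_univ, Fintype.card_coe]
        _ ≤ _ := Nat.mul_le_mul_right _ hs
    · intro a ha
      obtain ⟨p, hp⟩ := hcover a ha
      obtain ⟨φ, hφ, hφ2⟩ := hF2 p a hp
      exact ⟨φ, Finset.mem_biUnion.2 ⟨p, Finset.mem_univ _, hφ⟩, hφ2⟩

/-- Arbitrary generating sets, a family of homomorphisms indexed by `Fin K`. -/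
theorem lin_cover (p : ℕ) (hp : p.Prime) (k M : ℕ) : ∃ K : ℕ, ∀ (Γ : Type) [AddCommGroup Γ]
    [Fintype Γ] (S : Set Γ), (∀ x : Γ, p • x = 0) → 0 ∉ S →
    (SimpleGraph.addCayley S).CliqueFree (k + 1) →
    IsEmpty (cube M ↪g SimpleGraph.addCayley S) →
    ∃ L : Fin K → (Γ →+ ZMod p), ∀ s ∈ S, ∃ j, L j s ≠ 0 := by
  classical
  obtain ⟨K, hK⟩ := lin_main p M hp k
  refine ⟨K, ?_⟩
  intro Γ _ _ S htor h0 hfree hemp
  obtain ⟨A', hA'neg, h0A', hadj, hGeq⟩ := norm_gen S
  obtain ⟨F, hF, hF2⟩ := hK Γ A' htor hA'neg h0A' (by rw [← hGeq]; exact hfree)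
    (by rw [← hGeq]; exact hemp)
  have hSA : ∀ s ∈ S, s ∈ A' := by
    intro s hs
    have h1 : (SimpleGraph.addCayley S).Adj 0 s := by
      rw [SimpleGraph.addCayley_adj']
      refine ⟨fun h => h0 (by rw [h]; exact hs), s, hs, Or.inl (zero_add s)⟩
    have h2 := (hadj 0 s).1 h1
    rwa [sub_zero] at h2
  refine ⟨fun j => if h : (j : ℕ) < F.card then (F.equivFin.symm ⟨j, h⟩ : Γ →+ ZMod p) else 0, ?_⟩
  intro s hs
  obtain ⟨φ, hφ, hφ2⟩ := hF2 s (hSA s hs)
  refine ⟨⟨F.equivFin ⟨φ, hφ⟩, (F.equivFin ⟨φ, hφ⟩).2.trans_le hF⟩, ?_⟩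
  simpa using hφ2

end Pool.Agent.TH346.CG
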