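import Pool.Agent.TH346.CG.Sub

/-!
# Colouring when no generator in `S` is a near-period
-/

namespace Pool.Agent.TH346.CG

open Finset Pool.Agent.TH346.LG
open scoped Pointwise

theorem insert_neg {Γ : Type} [AddCommGroup Γ] [DecidableEq Γ] (S : Finset Γ) (hS : -S = S) :
    -(insert 0 S : Finset Γ) = insert 0 S := by
  ext x
  rw [Finset.mem_neg', Finset.mem_insert, Finset.mem_insert, neg_eq_zero, ← Finset.mem_neg', hS]

theorem ks_add {Γ : Type} [AddCommGroup Γ] [DecidableEq Γ] (D : Finset Γ) (a b : ℕ) :
    ks a D + ks b D = ks (a + b) D := by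
  induction b with
  | zero =>
    show ks a D + {0} = ks a D
    rw [Finset.singleton_zero, add_zero]
  | succ b ih =>
    show ks a D + (ks b D + D) = ks (a + b) D + D
    rw [← add_assoc, ih]

theorem card_ks_T {Γ : Type} [AddCommGroup Γ] [DecidableEq Γ] (S : Finset Γ) (hS : -S = S)
    (hSn : S.Nonempty) (K : ℕ) (hK : (S + S + S).card ≤ K * S.card) (m : ℕ) (hm : 3 ≤ m) :
    (ks m (insert 0 S)).card ≤ 2 * (4 * K) ^ (m - 2) * S.card := by
  obtain ⟨T, hT⟩ : ∃ T, T = insert 0 S := ⟨_, rfl⟩
  rw [← hT]
  have h3 : ks 3 T = T + T + T := by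
    show (((({0} : Finset Γ) + T) + T) + T) = _
    rw [Finset.singleton_zero, zero_add]
  have h4 : (T + T + T).card ≤ 4 * K * T.card := by
    have h5 : T + T + T ⊆ (({0} ∪ S) ∪ (S + S)) ∪ (S + S + S) := by
      intro x hx
      obtain ⟨y, hy, z, hz, rfl⟩ := Finset.mem_add.1 hx
      obtain ⟨u, hu, v, hv, rfl⟩ := Finset.mem_add.1 hy
      rw [hT, Finset.mem_insert] at hz hu hv
      simp only [Finset.mem_union, Finset.mem_singleton]
      rcases hu with hu | hu <;> rcases hv with hv | hv <;> rcases hz with hz | hz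
      · left; left; left; rw [hu, hv, hz]; simp
      · left; left; right; rw [hu, hv]; simpa using hz
      · left; left; right; rw [hu, hz]; simpa using hv
      · left; right; rw [hu, zero_add]; exact Finset.add_mem_add hv hz
      · left; left; right; rw [hv, hz]; simpa using hu
      · left; right; rw [hv, add_zero]; exact Finset.add_mem_add hu hz
      · left; right; rw [hz, add_zero]; exact Finset.add_mem_add hu hv
      · right; exact Finset.add_mem_add (Finset.add_mem_add hu hv) hz
    have h6 := Finset.card_le_card h5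
    have h7 := Finset.card_union_le (({0} ∪ S) ∪ (S + S)) (S + S + S)
    have h8 := Finset.card_union_le ({0} ∪ S) (S + S)
    have h9 := Finset.card_union_le {0} S
    rw [Finset.card_singleton] at h9
    have h10 : S.card ≤ (S + S).card := Finset.card_le_card_add_right hSn
    have h11 : (S + S).card ≤ (S + S + S).card := Finset.card_le_card_add_right hSn
    have h12 : 1 ≤ S.card := hSn.card_pos
    have h13 : S.card ≤ T.card := by
      rw [hT]
      exact Finset.card_le_card (Finset.subset_insert _ _)
    have h14 : 4 * (S + S + S).card ≤ 4 * K * T.card := by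
      calc 4 * (S + S + S).card ≤ 4 * (K * S.card) := Nat.mul_le_mul_left _ hK
        _ ≤ 4 * (K * T.card) := Nat.mul_le_mul_left _ (Nat.mul_le_mul_left _ h13)
        _ = _ := by ring
    omega
  have hTn : -T = T := by rw [hT]; exact insert_neg S hS
  have h := Finset.small_nsmul_of_small_tripling (A := T) (K := ((4 * K : ℕ) : ℝ)) (m := m) hm
    (by
      have h5 : ((ks 3 T).card : ℝ) ≤ ((4 * K : ℕ) : ℝ) * (T.card : ℝ) := by
        rw [h3]
        exact_mod_cast h4
      rw [ks_eq_nsmul] at h5
      exact h5) hTn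
  have h5 : ((ks m T).card : ℝ) ≤ ((4 * K : ℕ) : ℝ) ^ (m - 2) * (T.card : ℝ) := by
    rw [ks_eq_nsmul]
    exact h
  have h6 : (ks m T).card ≤ (4 * K) ^ (m - 2) * T.card := by exact_mod_cast h5
  have h7 : T.card ≤ 2 * S.card := by
    have h8 := Finset.card_insert_le (0 : Γ) S
    rw [← hT] at h8
    have h12 : 1 ≤ S.card := hSn.card_pos
    omega
  calc (ks m T).card ≤ (4 * K) ^ (m - 2) * T.card := h6
    _ ≤ (4 * K) ^ (m - 2) * (2 * S.card) := Nat.mul_le_mul_left _ h7
    _ = _ := by ring

/-- `S` is covered by few translates of the near-periods. -/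
theorem near_cover (C d K q j : ℕ) (hq : 1 ≤ q) (hj : 2 ≤ j) : ∃ L : ℕ, ∀ (Γ : Type)
    [AddCommGroup Γ] [DecidableEq Γ] (A S E : Finset Γ), -A = A → S.Nonempty → -S = S →
    (S + S + S).card ≤ K * S.card → Pack C d A →
    (∀ a, a ∈ E ↔ a ∈ ks 2 (insert 0 S) ∧ q * nrm A (ks j (insert 0 S)) a ≤ S.card) →
    S.card ≤ L * E.card := by
  refine ⟨C * (2 * (4 * K) ^ (j + 1 - 2) * q) ^ d, ?_⟩
  intro Γ _ _ A S E hA hSn hS hK hpack hE
  classical
  obtain ⟨T, hT⟩ : ∃ T, T = insert 0 S := ⟨_, rfl⟩
  rw [← hT] at hE
  have hT0 : (0 : Γ) ∈ T := by rw [hT]; exact Finset.mem_insert_self _ _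
  have hTn : -T = T := by rw [hT]; exact insert_neg S hS
  have hST : S ⊆ T := by rw [hT]; exact Finset.subset_insert _ _
  -- maximal separated subset
  obtain ⟨Pr, hPr⟩ : ∃ Pr : Finset Γ → Prop, ∀ U, Pr U ↔ (U ⊆ S ∧
      ∀ u ∈ U, ∀ v ∈ U, u ≠ v → S.card < q * nrm A (ks j T) (v - u)) := ⟨_, fun U => Iff.rfl⟩
  have hne : (S.powerset.filter Pr).Nonempty :=
    ⟨∅, Finset.mem_filter.2 ⟨Finset.empty_mem_powerset _, (hPr ∅).2 (by simp)⟩⟩
  obtain ⟨U, hU, hmax⟩ := Finset.exists_max_image _ Finset.card hne
  obtain ⟨hUS, hUsep⟩ := (hPr U).1 (Finset.mem_filter.1 hU).2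
  have hnear : ∀ s ∈ S, ∃ u ∈ U, s - u ∈ E := by
    intro s hs
    by_cases hsU : s ∈ U
    · refine ⟨s, hsU, ?_⟩
      rw [sub_self, hE]
      refine ⟨?_, ?_⟩
      · exact ks_mono T hT0 (Nat.zero_le 2) (by simp [ks])
      · have : nrm A (ks j T) 0 = 0 := by
          unfold nrm
          rw [Finset.card_eq_zero, Finset.filter_eq_empty_iff]
          intro t _
          rw [sub_zero]
          exact fun h => h Iff.rfl
        rw [this, Nat.mul_zero]
        exact Nat.zero_le _
    · by_contra hno
      push Not at hno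
      have hfar : ∀ u ∈ U, S.card < q * nrm A (ks j T) (s - u) := by
        intro u hu
        by_contra hle
        push Not at hle
        apply hno u hu
        rw [hE]
        refine ⟨?_, hle⟩
        have h1 : s + -u ∈ ks 1 T + T := by
          apply Finset.add_mem_add
          · show s ∈ ({0} : Finset Γ) + T
            rw [Finset.singleton_zero, zero_add]
            exact hST hs
          · rw [← hTn, Finset.mem_neg', neg_neg]
            exact hST (hUS hu)
        rw [← sub_eq_add_neg] at h1
        exact h1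
      have h2 : insert s U ∈ S.powerset.filter Pr := by
        rw [Finset.mem_filter, hPr, Finset.mem_powerset]
        have h3 : insert s U ⊆ S := by
          intro x hx
          rcases Finset.mem_insert.1 hx with h | h
          · rw [h]; exact hs
          · exact hUS h
        refine ⟨h3, h3, ?_⟩
        intro x hx y hy hxy
        rcases Finset.mem_insert.1 hx with h | h
        · rcases Finset.mem_insert.1 hy with h' | h'
          · exact absurd (h.trans h'.symm) hxy
          · rw [h]
            have h4 := hfar y h'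
            have h5 : y - s = -(s - y) := by abel
            rw [h5, nrm_neg A _ hA (ks_neg T hTn j)]
            exact h4
        · rcases Finset.mem_insert.1 hy with h' | h'
          · rw [h']; exact hfar x h
          · exact hUsep x h y h' hxy
      have h3 := hmax _ h2
      rw [Finset.card_insert_of_notMem hsU] at h3
      omega
  -- packing
  have hUc : U.card ≤ C * (2 * (4 * K) ^ (j + 1 - 2) * q) ^ d := by
    have hKpos : 1 ≤ K := by
      by_contra h
      have hK0 : K = 0 := by omega
      rw [hK0, Nat.zero_mul, Nat.le_zero, Finset.card_eq_zero] at hK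
      obtain ⟨x, hx⟩ := hSn
      have : x + x + x ∈ S + S + S := Finset.add_mem_add (Finset.add_mem_add hx hx) hx
      rw [hK] at this
      simp at this
    apply hpack (ks (j + 1) T) U (2 * (4 * K) ^ (j + 1 - 2) * q)
    · exact Nat.mul_pos (Nat.mul_pos (by norm_num) (pow_pos (by omega) _)) hq
    · exact ⟨0, ks_mono T hT0 (Nat.zero_le (j + 1)) (by simp [ks])⟩
    · intro u hu v hv huv
      have h1 := hUsep u hu v hv huv
      have h2 : nrm A (ks j T) (v - u) ≤
          ((ks (j + 1) T).filter fun z => ¬ (z - u ∈ A ↔ z - v ∈ A)).card := by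
        unfold nrm
        apply Finset.card_le_card_of_injOn (fun t => t + u)
        · intro t ht
          rw [Finset.mem_coe, Finset.mem_filter] at ht
          rw [Finset.mem_coe, Finset.mem_filter]
          refine ⟨Finset.add_mem_add ht.1 (hST (hUS hu)), ?_⟩
          have h3 : t + u - u = t := by abel
          have h4 : t + u - v = t - (v - u) := by abel
          rw [h3, h4]
          exact ht.2
        · intro a _ b _ hab
          exact add_right_cancel hab
      have h3 := card_ks_T S hS hSn K hK (j + 1) (by omega)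
      rw [← hT] at h3
      calc (ks (j + 1) T).card ≤ 2 * (4 * K) ^ (j + 1 - 2) * S.card := h3
        _ ≤ 2 * (4 * K) ^ (j + 1 - 2) * (q * nrm A (ks j T) (v - u)) :=
            Nat.mul_le_mul_left _ h1.le
        _ ≤ 2 * (4 * K) ^ (j + 1 - 2) * (q *
            ((ks (j + 1) T).filter fun z => ¬ (z - u ∈ A ↔ z - v ∈ A)).card) :=
            Nat.mul_le_mul_left _ (Nat.mul_le_mul_left _ h2)
        _ = _ := by ring
  have h1 : S ⊆ U.biUnion (fun u => E.image (fun e => u + e)) := by
    intro s hs
    obtain ⟨u, hu, hsu⟩ := hnear s hs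
    exact Finset.mem_biUnion.2 ⟨u, hu, Finset.mem_image.2 ⟨s - u, hsu, by abel⟩⟩
  calc S.card ≤ (U.biUnion (fun u => E.image (fun e => u + e))).card := Finset.card_le_card h1
    _ ≤ ∑ u ∈ U, (E.image (fun e => u + e)).card := Finset.card_biUnion_le
    _ ≤ ∑ _u ∈ U, E.card := Finset.sum_le_sum (fun u _ => Finset.card_image_le)
    _ = U.card * E.card := by rw [Finset.sum_const, smul_eq_mul]
    _ ≤ _ := Nat.mul_le_mul_right _ hUc

end Pool.Agent.TH346.CG
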