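import Pool.Agent.TH346.CG.Asm
import Pool.Agent.TH589.CG.Packing
import Pool.Agent.TH365.CG.Tor
import Pool.Agent.TH511.CG.Nrm1
import Pool.Agent.TH391.CG.Scale
import Pool.Agent.TH720.CG.Pick2
import Pool.Agent.TH967.CG.CubeEmb
import Pool.Agent.TH283.CG.Cube2

/-!
# A subgroup of near-periods
-/

namespace Pool.Agent.TH346.CG

open Finset Pool.Agent.TH346.LG
open scoped Pointwise

theorem ks_neg {Γ : Type} [AddCommGroup Γ] [DecidableEq Γ] (D : Finset Γ) (hD : -D = D) (k : ℕ) :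
    -(ks k D) = ks k D := by
  induction k with
  | zero => simp [ks]
  | succ k ih =>
    show -(ks k D + D) = ks k D + D
    rw [neg_add, ih, hD]

theorem nrm_mono {Γ : Type} [AddCommGroup Γ] [DecidableEq Γ] (A : Finset Γ) {R R' : Finset Γ}
    (h : R ⊆ R') (a : Γ) : nrm A R a ≤ nrm A R' a :=
  Finset.card_le_card (Finset.filter_subset_filter _ h)

theorem nrm_neg {Γ : Type} [AddCommGroup Γ] [DecidableEq Γ] (A R : Finset Γ) (hA : -A = A)
    (hR : -R = R) (a : Γ) : nrm A R (-a) = nrm A R a := by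
  have hmem : ∀ x, -x ∈ A ↔ x ∈ A := by
    intro x
    rw [← Finset.mem_neg', hA]
  have hmemR : ∀ x, -x ∈ R ↔ x ∈ R := by
    intro x
    rw [← Finset.mem_neg', hR]
  unfold nrm
  refine Finset.card_bij' (fun t _ => -t) (fun t _ => -t) ?_ ?_ (fun t _ => neg_neg t)
    (fun t _ => neg_neg t)
  · intro t ht
    rw [Finset.mem_filter] at ht ⊢
    refine ⟨(hmemR t).2 ht.1, ?_⟩
    have h1 : -t - a = -(t - -a) := by abel
    rw [h1, hmem, hmem]
    exact ht.2
  · intro t ht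
    rw [Finset.mem_filter] at ht ⊢
    refine ⟨(hmemR t).2 ht.1, ?_⟩
    have h1 : -t - -a = -(t - a) := by abel
    rw [h1, hmem, hmem]
    exact ht.2

theorem subgroup (C d K r n : ℕ) (hr : 1 ≤ r) (hn : 1 ≤ n) : ∃ L : ℕ,
    ∀ (Γ : Type) [AddCommGroup Γ] [DecidableEq Γ] (A S : Finset Γ), (∀ x : Γ, r • x = 0) →
    -A = A → S ⊆ A → S.Nonempty → -S = S → (S + S + S).card ≤ K * S.card → Pack C d A →
    ∃ H : AddSubgroup Γ, (∀ h ∈ H, n * (S.filter fun s => s - h ∉ A).card ≤ S.card) ∧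
      ∃ Y : Finset Γ, Y.card ≤ L ∧ ∀ s ∈ S, ∃ y ∈ Y, s - y ∈ H := by
  obtain ⟨K₁, hK₁⟩ := Pool.Agent.TH391.CG.good_scale C d K
  obtain ⟨k₀, hk₀⟩ : ∃ k₀, k₀ = 3 * r * K₁ + 2 := ⟨_, rfl⟩
  have hk1 : 1 ≤ k₀ := by omega
  obtain ⟨L, hL⟩ := hK₁ (n * k₀) (1 + 2 * k₀) (Nat.mul_pos hn hk1)
  refine ⟨L, ?_⟩
  intro Γ _ _ A S htor hA hSA hS hSn hSK hpack
  obtain ⟨q, j, hq, hj, E, hE, hE4, Y, hY, hYS⟩ := hL Γ A S hS hSn hSK hpack
  obtain ⟨T, hT⟩ : ∃ T, T = insert 0 S := ⟨_, rfl⟩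
  rw [← hT] at hE
  have hT0 : (0 : Γ) ∈ T := by rw [hT]; exact Finset.mem_insert_self _ _
  have hTn : -T = T := by
    rw [hT]
    ext x
    rw [Finset.mem_neg', Finset.mem_insert, Finset.mem_insert, neg_eq_zero, ← Finset.mem_neg', hSn]
  have h0E : (0 : Γ) ∈ E := by
    rw [hE]
    refine ⟨?_, ?_⟩
    · have : (0 : Γ) + 0 ∈ ks 2 T := by
        have h1 : (0 : Γ) ∈ ks 1 T := ks_mono T hT0 (Nat.zero_le 1) (by simp [ks])
        exact Finset.add_mem_add h1 hT0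
      rwa [add_zero] at this
    · have : nrm A (ks j T) 0 = 0 := by
        unfold nrm
        rw [Finset.card_eq_zero, Finset.filter_eq_empty_iff]
        intro t _
        rw [sub_zero]
        exact fun h => h Iff.rfl
      rw [this, Nat.mul_zero]
      exact Nat.zero_le _
  have hEn : -E = E := by
    ext x
    rw [Finset.mem_neg', hE, hE, nrm_neg A _ hA (ks_neg T hTn j), ← Finset.mem_neg', ks_neg T hTn]
  refine ⟨AddSubgroup.closure (E : Set Γ), ?_, Y, hY, ?_⟩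
  · intro h hh
    have h1 := Pool.Agent.TH365.CG.torsion_gen K₁ r hr htor E h0E hEn hE4 h hh
    rw [← hk₀] at h1
    have h2 := Pool.Agent.TH511.CG.nrm_ks A T E hT0 hTn 1 k₀ 2 q S.card (by
      intro e he
      have h3 := (hE e).1 he
      refine ⟨h3.1, ?_⟩
      refine le_trans (Nat.mul_le_mul_left _ (nrm_mono A (ks_mono T hT0 hj) e)) h3.2) h h1
    have h4 : (S.filter fun s => s - h ∉ A).card ≤ nrm A (ks 1 T) h := by
      unfold nrm
      apply Finset.card_le_card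
      intro s hs
      rw [Finset.mem_filter] at hs ⊢
      refine ⟨?_, ?_⟩
      · show s ∈ ({0} : Finset Γ) + T
        rw [Finset.singleton_zero, zero_add, hT]
        exact Finset.mem_insert_of_mem hs.1
      · intro h5
        exact hs.2 (h5.1 (hSA hs.1))
    have h5 : n * k₀ * nrm A (ks 1 T) h ≤ k₀ * S.card :=
      (Nat.mul_le_mul_right _ hq).trans h2
    have h6 : k₀ * (n * nrm A (ks 1 T) h) ≤ k₀ * S.card := by
      calc k₀ * (n * nrm A (ks 1 T) h) = n * k₀ * nrm A (ks 1 T) h := by ring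
        _ ≤ _ := h5
    exact (Nat.mul_le_mul_left _ h4).trans (Nat.le_of_mul_le_mul_left h6 hk1)
  · intro s hs
    obtain ⟨y, hy, h⟩ := hYS s hs
    exact ⟨y, hy, AddSubgroup.subset_closure h⟩

end Pool.Agent.TH346.CG
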